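import Mathlib

set_option autoImplicit false

namespace Pool.Agent.V5helper14.Halving

open Finset

variable {P J : Type} [Fintype P] [DecidableEq P] [Fintype J] [DecidableEq J]

/-- assignments supported on `X` avoiding the patterns whose support lies in `X` -/
noncomputable def good (S : J → Finset P) (pat : J → P → Bool) (X : Finset P) :
    Finset (P → Bool) :=
  Finset.univ.filter (fun x => (∀ p, p ∉ X → x p = false) ∧
    ∀ j, S j ⊆ X → ∃ p ∈ S j, x p ≠ pat j p)

lemma mem_good {S : J → Finset P} {pat : J → P → Bool} {X : Finset P} {x : P → Bool} :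
    x ∈ good S pat X ↔ (∀ p, p ∉ X → x p = false) ∧
      ∀ j, S j ⊆ X → ∃ p ∈ S j, x p ≠ pat j p := by
  simp [good]

lemma bad_le (S : J → Finset P) (pat : J → P → Bool) (X : Finset P) (p : P) (hp : p ∉ X)
    (j : J) (hj : S j ⊆ insert p X) (hpj : p ∈ S j) :
    (((good S pat X) ×ˢ (Finset.univ : Finset Bool)).filter
      (fun y => ∀ q ∈ S j, Function.update y.1 p y.2 q = pat j q)).card ≤
    (good S pat (X \ S j)).card := by
  refine Finset.card_le_card_of_injOn (fun y => fun q => if q ∈ S j then false else y.1 q) ?_ ?_
  · rintro ⟨x, b⟩ hy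
    simp only [Finset.coe_filter, Finset.mem_product, Finset.mem_univ, and_true,
      Set.mem_setOf_eq] at hy
    obtain ⟨hx, hag⟩ := hy
    rw [mem_good] at hx
    simp only [Finset.mem_coe]
    rw [mem_good]
    refine ⟨?_, ?_⟩
    · intro q hq
      by_cases hqj : q ∈ S j
      · simp [hqj]
      · have : q ∉ X := fun h => hq (Finset.mem_sdiff.2 ⟨h, hqj⟩)
        simp [hqj, hx.1 q this]
    · intro i hi
      obtain ⟨q, hq, hne⟩ := hx.2 i (hi.trans Finset.sdiff_subset)
      have hqj : q ∉ S j := (Finset.mem_sdiff.1 (hi hq)).2
      exact ⟨q, hq, by simpa [hqj] using hne⟩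
  · rintro ⟨x, b⟩ hy ⟨x', b'⟩ hy' heq
    simp only [Finset.coe_filter, Finset.mem_product, Finset.mem_univ, and_true,
      Set.mem_setOf_eq] at hy hy'
    obtain ⟨hx, hag⟩ := hy
    obtain ⟨hx', hag'⟩ := hy'
    rw [mem_good] at hx hx'
    have hb : b = b' := by
      have h1 := hag p hpj
      have h2 := hag' p hpj
      simp only [Function.update_self] at h1 h2
      rw [h1, h2]
    have hxx : x = x' := by
      funext q
      by_cases hqj : q ∈ S j
      · by_cases hqp : q = p
        · subst hqp
          rw [hx.1 q hp, hx'.1 q hp]
        · have h1 := hag q hqj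
          have h2 := hag' q hqj
          simp only [Function.update_of_ne hqp] at h1 h2
          rw [h1, h2]
      · have := congrFun heq q
        simpa [hqj] using this
    rw [hb, hxx]

lemma step (S : J → Finset P) (pat : J → P → Bool) (β : ℝ) (k D : ℕ) (hβ : 1 ≤ β)
    (hS : ∀ j, k + 1 ≤ (S j).card)
    (hD : ∀ p, (Finset.univ.filter (fun j => p ∈ S j)).card ≤ D)
    (hk : β + D / β ^ k ≤ 2) :
    ∀ (n : ℕ) (X : Finset P), X.card = n →
      (∀ Y ⊆ X, β ^ (X \ Y).card * ((good S pat Y).card : ℝ) ≤ (good S pat X).card) ∧
      ∀ p, p ∉ X → β * ((good S pat X).card : ℝ) ≤ (good S pat (insert p X)).card := by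
  intro n
  induction n using Nat.strong_induction_on with
  | _ n ih =>
    intro X hX
    have h1 : ∀ Y ⊆ X, β ^ (X \ Y).card * ((good S pat Y).card : ℝ) ≤ (good S pat X).card := by
      intro Y hY
      by_cases hYX : Y = X
      · subst hYX; simp
      · obtain ⟨q, hqX, hqY⟩ : ∃ q ∈ X, q ∉ Y := by
          by_contra hcon
          push Not at hcon
          exact hYX (Finset.Subset.antisymm hY hcon)
        have hc : (X.erase q).card < n := by
          rw [← hX]; exact Finset.card_erase_lt_of_mem hqX
        obtain ⟨i1, i2⟩ := ih _ hc (X.erase q) rfl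
        have hYe : Y ⊆ X.erase q := fun y hy => Finset.mem_erase.2
          ⟨fun h => hqY (h ▸ hy), hY hy⟩
        have a1 := i1 Y hYe
        have a2 := i2 q (Finset.notMem_erase q X)
        rw [Finset.insert_erase hqX] at a2
        have hcard : (X \ Y).card = (X.erase q \ Y).card + 1 := by
          have : X \ Y = insert q (X.erase q \ Y) := by
            ext z
            simp only [Finset.mem_sdiff, Finset.mem_insert, Finset.mem_erase]
            constructor
            · rintro ⟨h1, h2⟩
              by_cases hz : z = q
              · exact Or.inl hz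
              · exact Or.inr ⟨⟨hz, h1⟩, h2⟩
            · rintro (rfl | ⟨⟨_, h1⟩, h2⟩)
              · exact ⟨hqX, hqY⟩
              · exact ⟨h1, h2⟩
          rw [this, Finset.card_insert_of_notMem (by simp)]
        rw [hcard, pow_succ]
        calc β ^ (X.erase q \ Y).card * β * ((good S pat Y).card : ℝ)
            = β * (β ^ (X.erase q \ Y).card * ((good S pat Y).card : ℝ)) := by ring
          _ ≤ β * ((good S pat (X.erase q)).card : ℝ) := by
              apply mul_le_mul_of_nonneg_left a1; linarith
          _ ≤ _ := a2
    refine ⟨h1, ?_⟩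
    intro p hp
    set T := (good S pat X) ×ˢ (Finset.univ : Finset Bool) with hT
    have hTc : (T.card : ℝ) = 2 * ((good S pat X).card : ℝ) := by
      rw [hT, Finset.card_product]
      simp [mul_comm]
    set Jp := (Finset.univ.filter (fun j => p ∈ S j ∧ S j ⊆ insert p X)) with hJp
    set bad := fun j => T.filter (fun y => ∀ q ∈ S j, Function.update y.1 p y.2 q = pat j q)
      with hbad
    have hcover : T ⊆ (Jp.biUnion bad) ∪
        T.filter (fun y => Function.update y.1 p y.2 ∈ good S pat (insert p X)) := by
      intro y hy
      by_cases hg : Function.update y.1 p y.2 ∈ good S pat (insert p X)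
      · exact Finset.mem_union_right _ (Finset.mem_filter.2 ⟨hy, hg⟩)
      · apply Finset.mem_union_left
        rw [mem_good] at hg
        have hyg : y.1 ∈ good S pat X := (Finset.mem_product.1 hy).1
        rw [mem_good] at hyg
        have h2 : ∀ q, q ∉ insert p X → Function.update y.1 p y.2 q = false := by
          intro q hq
          rw [Finset.mem_insert, not_or] at hq
          rw [Function.update_of_ne hq.1]
          exact hyg.1 q hq.2
        have h3 : ∃ j, S j ⊆ insert p X ∧ ∀ q ∈ S j, Function.update y.1 p y.2 q = pat j q := by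
          by_contra hcon
          push Not at hcon
          exact hg ⟨h2, hcon⟩
        obtain ⟨j, hj, hag⟩ := h3
        have hpj : p ∈ S j := by
          by_contra hpj
          have hjX : S j ⊆ X := by
            intro z hz
            rcases Finset.mem_insert.1 (hj hz) with h | h
            · exact absurd (h ▸ hz) hpj
            · exact h
          obtain ⟨q, hq, hne⟩ := hyg.2 j hjX
          apply hne
          have hqp : q ≠ p := fun h => hpj (h ▸ hq)
          have := hag q hq
          rwa [Function.update_of_ne hqp] at this
        exact Finset.mem_biUnion.2 ⟨j, Finset.mem_filter.2 ⟨Finset.mem_univ _, hpj, hj⟩,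
          Finset.mem_filter.2 ⟨hy, hag⟩⟩
    have hgoodle : (T.filter (fun y => Function.update y.1 p y.2 ∈
        good S pat (insert p X))).card ≤ (good S pat (insert p X)).card := by
      refine Finset.card_le_card_of_injOn (fun y => Function.update y.1 p y.2) ?_ ?_
      · intro y hy
        exact (Finset.mem_filter.1 hy).2
      · rintro ⟨x, b⟩ hy ⟨x', b'⟩ hy' heq
        have hx := (mem_good.1 (Finset.mem_product.1 (Finset.mem_filter.1 hy).1).1).1
        have hx' := (mem_good.1 (Finset.mem_product.1 (Finset.mem_filter.1 hy').1).1).1
        simp only at heq hx hx'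
        have hb : b = b' := by
          have := congrFun heq p
          simpa using this
        have hxx : x = x' := by
          funext q
          by_cases hq : q = p
          · subst hq
            rw [hx q hp, hx' q hp]
          · have := congrFun heq q
            rwa [Function.update_of_ne hq, Function.update_of_ne hq] at this
        rw [hb, hxx]
    have hbadle : ∀ j ∈ Jp, β ^ k * ((bad j).card : ℝ) ≤ (good S pat X).card := by
      intro j hj
      obtain ⟨-, hpj, hjX⟩ := Finset.mem_filter.1 hj
      have b1 : ((bad j).card : ℝ) ≤ (good S pat (X \ S j)).card := by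
        exact_mod_cast bad_le S pat X p hp j hjX hpj
      have b2 := h1 (X \ S j) Finset.sdiff_subset
      have b3 : k ≤ (X \ (X \ S j)).card := by
        have : (S j).erase p ⊆ X \ (X \ S j) := by
          intro z hz
          obtain ⟨hz1, hz2⟩ := Finset.mem_erase.1 hz
          have hzX : z ∈ X := by
            rcases Finset.mem_insert.1 (hjX hz2) with h | h
            · exact absurd h hz1
            · exact h
          simp [hzX, hz2]
        have h4 := Finset.card_le_card this
        rw [Finset.card_erase_of_mem hpj] at h4
        have := hS j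
        omega
      calc β ^ k * ((bad j).card : ℝ)
          ≤ β ^ (X \ (X \ S j)).card * ((good S pat (X \ S j)).card : ℝ) := by
            apply mul_le_mul (pow_le_pow_right₀ hβ b3) b1 (by positivity)
            have : (0:ℝ) ≤ β := by linarith
            positivity
        _ ≤ _ := b2
    have hβ0 : 0 < β := by linarith
    have hβk : 0 < β ^ k := by positivity
    have hJpD : (Jp.card : ℝ) ≤ D := by
      have : Jp.card ≤ D := le_trans (Finset.card_le_card (by
        intro j hj
        obtain ⟨-, h, -⟩ := Finset.mem_filter.1 hj
        exact Finset.mem_filter.2 ⟨Finset.mem_univ _, h⟩)) (hD p)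
      exact_mod_cast this
    have hsum : ((Jp.biUnion bad).card : ℝ) ≤ D * ((good S pat X).card : ℝ) / β ^ k := by
      calc ((Jp.biUnion bad).card : ℝ) ≤ ∑ j ∈ Jp, ((bad j).card : ℝ) := by
            exact_mod_cast Finset.card_biUnion_le
        _ ≤ ∑ _j ∈ Jp, ((good S pat X).card : ℝ) / β ^ k := by
            apply Finset.sum_le_sum
            intro j hj
            rw [le_div_iff₀ hβk]
            have := hbadle j hj
            linarith
        _ = Jp.card * (((good S pat X).card : ℝ) / β ^ k) := by
            rw [Finset.sum_const, nsmul_eq_mul]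
        _ ≤ D * (((good S pat X).card : ℝ) / β ^ k) := by
            apply mul_le_mul_of_nonneg_right hJpD; positivity
        _ = _ := by ring
    have htot : (T.card : ℝ) ≤ ((Jp.biUnion bad).card : ℝ) +
        ((good S pat (insert p X)).card : ℝ) := by
      have h5 : T.card ≤ (Jp.biUnion bad).card + (good S pat (insert p X)).card := by
        calc T.card ≤ _ := Finset.card_le_card hcover
          _ ≤ _ := Finset.card_union_le _ _
          _ ≤ _ := by gcongr
      exact_mod_cast h5
    rw [hTc] at htot
    have hg0 : (0:ℝ) ≤ ((good S pat X).card : ℝ) := by positivity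
    have h6 : (β + D / β ^ k) * ((good S pat X).card : ℝ) ≤ 2 * ((good S pat X).card : ℝ) :=
      mul_le_mul_of_nonneg_right hk hg0
    have h7 : (β + D / β ^ k) * ((good S pat X).card : ℝ) =
      β * ((good S pat X).card : ℝ) + D * ((good S pat X).card : ℝ) / β ^ k := by ring
    linarith

/-- The counting form of the local lemma. -/
theorem exists_avoid (S : J → Finset P) (pat : J → P → Bool) (β : ℝ) (k D : ℕ) (hβ : 1 ≤ β)
    (hS : ∀ j, k + 1 ≤ (S j).card)
    (hD : ∀ p, (Finset.univ.filter (fun j => p ∈ S j)).card ≤ D)
    (hk : β + D / β ^ k ≤ 2) :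
    ∃ x : P → Bool, ∀ j, ∃ p ∈ S j, x p ≠ pat j p := by
  have h1 := (step S pat β k D hβ hS hD hk _ (Finset.univ : Finset P) rfl).1 ∅
    (Finset.empty_subset _)
  have h2 : (0:ℝ) < ((good S pat (∅ : Finset P)).card : ℝ) := by
    have : (fun _ => false) ∈ good S pat (∅ : Finset P) := by
      rw [mem_good]
      refine ⟨fun _ _ => rfl, ?_⟩
      intro j hj
      have := Finset.card_le_card hj
      have h3 := hS j
      simp at this
      rw [this] at h3
      simp at h3
    exact_mod_cast Finset.card_pos.2 ⟨_, this⟩
  have h3 : (0:ℝ) < ((good S pat (Finset.univ : Finset P)).card : ℝ) := by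
    refine lt_of_lt_of_le ?_ h1
    have : 0 < β := by linarith
    positivity
  obtain ⟨x, hx⟩ := Finset.card_pos.1 (by exact_mod_cast h3 : 0 < (good S pat _).card)
  rw [mem_good] at hx
  exact ⟨x, fun j => hx.2 j (Finset.subset_univ _)⟩

end Pool.Agent.V5helper14.Halving
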