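import Pool.Agent.V5helper14.SPCount

set_option autoImplicit false
set_option linter.unusedSectionVars false

namespace Pool.Agent.V5helper14.SP

open Finset

section cls

variable {X : Type} [Fintype X] {n M : ℕ} {r r1 r2 : Equiv.Perm X} {p : ℕ → Option X}

/-- a 2-loop which is read without interruption, starting at position `q` -/
def Block (W : Walk n M r r1 r2 p) (q : ℕ) (a : X) : Prop :=
  ∀ k, k ≤ n - 2 → First W ((r1 ^ k) a) ∧ fst W ((r1 ^ k) a) = q + k * (n + 1) ∧
    ∀ j, j ≤ n - 1 → p (q + k * (n + 1) + j) = some ((r ^ j) ((r1 ^ k) a))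

open Classical in
/-- the good 2-loops: read without interruption and directly followed by a new 2-loop -/
noncomputable def GG (W : Walk n M r r1 r2 p) : Finset ℕ :=
  (Q1 W).filter (fun q => (∃ a, LeadAt W q a ∧ Block W q a) ∧ q + n ^ 2 ∈ Q1 W)

variable (W : Walk n M r r1 r2 p)

lemma mem_GG {q : ℕ} : q ∈ GG W ↔
    q ∈ Q1 W ∧ (∃ a, LeadAt W q a ∧ Block W q a) ∧ q + n ^ 2 ∈ Q1 W := by
  classical
  unfold GG
  rw [mem_filter]

lemma arith_n {n : ℕ} (hn : 3 ≤ n) : (n - 2) * (n + 1) + (n - 1) + 3 = n ^ 2 := by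
  obtain ⟨m, rfl⟩ := Nat.exists_eq_add_of_le hn
  have h1 : 3 + m - 2 = m + 1 := by omega
  have h2 : 3 + m - 1 = m + 2 := by omega
  rw [h1, h2]
  ring

include W

lemma r_last (c : X) : r ((r ^ (n - 1)) c) = c := by
  have hn := W.hn
  have h : r ((r ^ (n - 1)) c) = (r ^ n) c := by
    have : n = (n - 1) + 1 := by omega
    conv_rhs => rw [this, pow_succ', Equiv.Perm.mul_apply]
  rw [h, W.rn]
  rfl

lemma r_last' (x : X) : (r ^ (n - 1)) (r x) = x := by
  have hn := W.hn
  have h : (r ^ (n - 1)) (r x) = (r ^ n) x := by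
    have : n = (n - 1) + 1 := by omega
    conv_rhs => rw [this, pow_succ, Equiv.Perm.mul_apply]
  rw [h, W.rn]
  rfl

lemma r1_last (c : X) : r1 ((r1 ^ (n - 2)) c) = c := by
  have hn := W.hn
  have h : r1 ((r1 ^ (n - 2)) c) = (r1 ^ (n - 1)) c := by
    have : n - 1 = (n - 2) + 1 := by omega
    rw [this, pow_succ', Equiv.Perm.mul_apply]
  rw [h, W.r1n]
  rfl

lemma r1_last' (c : X) : (r1 ^ (n - 2)) (r1 c) = c := by
  have hn := W.hn
  have h : (r1 ^ (n - 2)) (r1 c) = (r1 ^ (n - 1)) c := by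
    have : n - 1 = (n - 2) + 1 := by omega
    rw [this, pow_succ, Equiv.Perm.mul_apply]
  rw [h, W.r1n]
  rfl

lemma Block.first {q : ℕ} {a z : X} (h : Block W q a) (hz : Orb r1 a z) : First W z := by
  have hn := W.hn
  obtain ⟨k, hk, rfl⟩ := orb_lt W.r1n (by omega) hz
  exact (h k (by omega)).1

/-- consecutive good 2-loops -/
lemma chain {q : ℕ} {a b : X} (ha : LeadAt W q a) (hba : Block W q a)
    (hb : LeadAt W (q + n ^ 2) b) (hbb : Block W (q + n ^ 2) b) : b = r2 a := by
  have hn := W.hn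
  have hr1 : 0 < n - 1 := by omega
  have hn2 : 0 < n ^ 2 := by positivity
  have hAr := arith_n hn
  set c := (r1 ^ (n - 2)) a with hc
  set R := q + (n - 2) * (n + 1) + (n - 1) with hR
  have hR3 : R + 3 = q + n ^ 2 := by omega
  have hx : p R = some ((r ^ (n - 1)) c) := (hba (n - 2) le_rfl).2.2 (n - 1) le_rfl
  have hrx := r_last W c
  have hcF : First W c := (hba (n - 2) le_rfl).1
  have hM : R + 3 ≤ M := by rw [hR3]; exact hb.1.1
  have hb3 : p (R + 3) = some b := by rw [hR3]; exact hb.1.2.1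
  have h2 : p (R + 2) = none := hb.1.2.2 (R + 2) (by omega)
  have hne : ∀ z, Orb r1 a z → Orb r1 b z → False := by
    intro z h1 h2
    have h3 := LeadAt.uniq W ha hb (h1.trans (h2.symm W.r1n hr1))
    omega
  have hac : Orb r1 a c := ⟨n - 2, rfl⟩
  rcases h1 : p (R + 1) with _ | c'
  · rcases W.w3 R _ b hM hx h1 h2 hb3 with h | h | ⟨y, hy, k, j, hkj⟩
    · exfalso
      rw [hrx, hc, r1_last W a] at h
      exact hne b ⟨1, by rw [h]; simp⟩ (Orb.refl _ _)
    · rw [hrx, hc, r1_last W a] at h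
      exact h
    · exfalso
      rw [hrx] at hkj
      have h4 : First W y := Block.first W hbb hy
      have h5 : Orb r1 a ((r1 ^ k) c) := hac.trans ⟨k, rfl⟩
      have h6 : First W ((r1 ^ k) c) := Block.first W hba h5
      have h7 : y = (r1 ^ k) c := First.uniq W h4 h6 ⟨j, hkj⟩
      rw [← h7] at h5
      exact hne y h5 hy
  · exfalso
    have h3 : c' = r ((r ^ (n - 1)) c) := W.w1 R _ c' (by omega) hx h1
    rw [hrx] at h3
    subst h3
    have h4 : b = r1 (r c) := W.w2 (R + 1) c b (by omega) h1 h2 hb3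
    have h5 : (r1 ^ (n - 2)) b = r c := by rw [h4]; exact r1_last' W _
    have h6 : First W (r c) := by rw [← h5]; exact Block.first W hbb ⟨n - 2, rfl⟩
    have h7 : c = r c := First.uniq W hcF h6 (Orb.step r c)
    exact W.rfree c 1 (by norm_num) (by omega) (by rw [pow_one]; exact h7.symm)

lemma exists_nonG {q : ℕ} (hq : q ∈ GG W) :
    ∃ i, i < n - 2 ∧ q + (i + 1) * n ^ 2 ∈ Q1 W \ GG W := by
  classical
  have hn := W.hn
  by_contra hcon
  push Not at hcon
  obtain ⟨hq1, ⟨a, ha, hba⟩, hq2⟩ := (mem_GG W).1 hq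
  have key : ∀ i, i ≤ n - 2 → LeadAt W (q + i * n ^ 2) ((r2 ^ i) a) ∧
      Block W (q + i * n ^ 2) ((r2 ^ i) a) ∧ q + (i + 1) * n ^ 2 ∈ Q1 W := by
    intro i
    induction i with
    | zero =>
      intro _
      refine ⟨by simpa using ha, by simpa using hba, by simpa using hq2⟩
    | succ i ih =>
      intro hi
      obtain ⟨h1, h2, h3⟩ := ih (by omega)
      have h4 := hcon i (by omega)
      rw [mem_sdiff, not_and, not_not] at h4
      obtain ⟨_, ⟨b, hb, hbb⟩, h6⟩ := (mem_GG W).1 (h4 h3)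
      have he : q + (i + 1) * n ^ 2 = q + i * n ^ 2 + n ^ 2 := by ring
      have he2 : q + (i + 1 + 1) * n ^ 2 = q + (i + 1) * n ^ 2 + n ^ 2 := by ring
      have h7 : b = r2 ((r2 ^ i) a) := by
        rw [he] at hb hbb
        exact chain W h1 h2 hb hbb
      have h8 : (r2 ^ (i + 1)) a = b := by
        rw [h7, pow_succ', Equiv.Perm.mul_apply]
      rw [h8, he2]
      exact ⟨hb, hbb, h6⟩
  obtain ⟨h1, _, _⟩ := key (n - 2) le_rfl
  rw [W.r2n] at h1
  have h2 := LeadAt.uniq W ha h1 (Orb.refl _ _)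
  have h3 : 0 < (n - 2) * n ^ 2 := by
    apply Nat.mul_pos (by omega)
    positivity
  omega

lemma card_G : (GG W).card ≤ (n - 2) * (Q1 W \ GG W).card := by
  classical
  have hn := W.hn
  have hn2 : 0 < n ^ 2 := by positivity
  have h : (GG W).card ≤ (range (n - 2) ×ˢ (Q1 W \ GG W)).card := by
    apply card_le_of_rel (fun q x => x.2 = q + (x.1 + 1) * n ^ 2)
    · intro q hq
      obtain ⟨i, hi, hi2⟩ := exists_nonG W hq
      exact ⟨(i, q + (i + 1) * n ^ 2), by rw [mem_product, mem_range]; exact ⟨hi, hi2⟩, rfl⟩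
    · rintro q _ q' _ ⟨i, x⟩ h1 h2
      simp only at h1 h2
      omega
  rwa [card_product, card_range] at h

lemma card_Q1 : (Q1 W).card ≤ (n - 1) * (Q1 W \ GG W).card := by
  classical
  have hn := W.hn
  have h1 := card_G W
  have h2 : (Q1 W \ GG W).card + (GG W).card = (Q1 W).card :=
    card_sdiff_add_card_eq_card (fun q hq => ((mem_GG W).1 hq).1)
  have h3 : n - 1 = (n - 2) + 1 := by omega
  rw [h3, add_mul, one_mul]
  omega

/-- an `r`-orbit without re-entry is read in one piece -/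
lemma run_lemma {c : X} (hc : First W c)
    (g1 : ∀ y, Orb r c y → Ent M p (fst W y) y → First W y)
    (g2 : ∀ t y, p t = some y → Orb r c y → ¬ Wst W t) :
    fst W ((r ^ (n - 1)) c) = fst W c + (n - 1) ∧
    ∀ j, j ≤ n - 1 → p (fst W c + j) = some ((r ^ j) c) := by
  have hn := W.hn
  have hn0 : 0 < n := by omega
  set x := (r ^ (n - 1)) c with hx
  have hcx : Orb r c x := ⟨n - 1, rfl⟩
  obtain ⟨q', y, hq', hE, hrun⟩ := run_start W (fst W x) x (fst_le W x) (fst_at W x)
  have hxy : x = (r ^ (fst W x - q')) y := by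
    have := hrun (fst W x) hq' le_rfl
    rw [fst_at W x] at this
    exact Option.some_injective _ this
  have hyx : Orb r y x := ⟨fst W x - q', hxy.symm⟩
  have hcy : Orb r c y := hcx.trans (hyx.symm W.rn hn0)
  have hMx := fst_le W x
  -- all visits of the run are first visits
  have hfst : ∀ j, q' ≤ j → j ≤ fst W x → fst W ((r ^ (j - q')) y) = j := by
    intro j h1 h2
    have hp := hrun j h1 h2
    have h3 := fst_min W (by omega) hp
    by_contra hne
    have h4 : fst W ((r ^ (j - q')) y) < j := by omega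
    have h5 : Orb r c ((r ^ (j - q')) y) := hcy.trans ⟨j - q', rfl⟩
    apply g2 j _ hp h5
    refine ⟨by omega, ?_, ?_, ?_⟩
    · rintro ⟨a, ha, ha2⟩
      rw [hp] at ha
      have := Option.some_injective _ ha
      rw [← this] at ha2
      omega
    · rintro ⟨s', x', hs', hx', hfx', hall⟩
      subst hs'
      have h6 : (r ^ (s' + 1 - q')) y = r x' := W.w1 s' x' _ (by omega) hx' hp
      have h7 : Orb r x' x := by
        have h8 : Orb r x' (r x') := Orb.step r x'
        rw [← h6] at h8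
        exact h8.trans ((h5.symm W.rn hn0).trans hcx)
      have := hall x h7
      omega
    · intro hT
      rw [TT_none W hT] at hp
      cases hp
  have hy1 : fst W y = q' := by
    have := hfst q' le_rfl hq'
    simpa using this
  have hyF : First W y := g1 y hcy (by rw [hy1]; exact hE)
  have hyc : c = y := First.uniq W hc hyF hcy
  subst hyc
  have hlt : fst W x - q' < n := by
    by_contra hge
    have h1 := hfst (q' + (n - 1)) (by omega) (by omega)
    have h2 : q' + (n - 1) - q' = n - 1 := by omega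
    rw [h2, ← hx] at h1
    omega
  have h3 : fst W x - q' = n - 1 := by
    apply pow_inj_free W hlt (by omega : n - 1 < n) (a := c)
    rw [← hxy]
  refine ⟨by omega, ?_⟩
  intro j hj
  have h4 := hrun (q' + j) (by omega) (by omega)
  have h5 : q' + j - q' = j := by omega
  rw [h5] at h4
  rw [hy1]
  exact h4

/-- two consecutive `r`-orbits of a 2-loop -/
lemma link {q : ℕ} {a c : X} (ha : LeadAt W q a) (hac : Orb r1 a c) (hne : r1 c ≠ a)
    (hF : First W (r1 c))
    (g : ∀ t z, p t = none → p (t + 1) = some z → Orb r1 a z → ¬ Wst W t) :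
    fst W ((r ^ (n - 1)) c) + 2 = fst W (r1 c) := by
  have hn := W.hn
  have hr1 : 0 < n - 1 := by omega
  have hE := first_ent W hF
  have hac1 : Orb r1 a (r1 c) := hac.trans (Orb.step r1 c)
  have h1 := ha.2 _ _ hE hac1
  have h2 : q ≠ fst W (r1 c) := by
    intro h
    have h3 := ha.1.2.1
    rw [h, fst_at W] at h3
    exact hne (Option.some_injective _ h3)
  obtain ⟨t, ht⟩ : ∃ t, fst W (r1 c) = t + 1 := ⟨fst W (r1 c) - 1, by omega⟩
  have hMt := fst_le W (r1 c)
  have hpt : p t = none := hE.2.2 t ht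
  have hpt1 : p (t + 1) = some (r1 c) := by rw [← ht]; exact fst_at W _
  have hw := g t (r1 c) hpt hpt1 hac1
  have h3 : CT W t := by
    by_contra hCT
    apply hw
    refine ⟨by omega, ?_, hCT, ?_⟩
    · rintro ⟨z, hz, _⟩
      rw [hpt] at hz
      cases hz
    · rintro ⟨b, hb⟩
      have h4 : Orb r1 a b := by
        have h5 := hb.1.2.1
        rw [hpt1] at h5
        rw [← Option.some_injective _ h5]
        exact hac1
      have := LeadAt.uniq W ha hb h4
      omega
  obtain ⟨s, x, hs, hx, hfx, hall⟩ := h3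
  subst hs
  have h4 : r1 c = r1 (r x) := W.w2 s x (r1 c) (by omega) hx hpt hpt1
  have h5 : c = r x := r1.injective h4
  rw [h5, r_last' W x, hfx, ← h5]
  omega

end cls

end Pool.Agent.V5helper14.SP
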