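import Mathlib

set_option autoImplicit false

/-!
# Superpermutations: the combinatorial core

An abstract walk.  `X` is the set of permutations, `r` the rotation of all letters, `r1` the rotation
of all letters but the last one, `r2` the rotation of all letters but the last two.  `p i` is the
permutation that can be read at position `i` of the word (`none` if there is no permutation there).
-/

namespace Pool.Agent.V5helper14.SP

open Finset

variable {X : Type}

/-- The properties of the reading walk of a superpermutation. -/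
structure Walk (n M : ℕ) (r r1 r2 : Equiv.Perm X) (p : ℕ → Option X) : Prop where
  hn : 3 ≤ n
  rn : r ^ n = 1
  rfree : ∀ a j, 0 < j → j < n → (r ^ j) a ≠ a
  r1n : r1 ^ (n - 1) = 1
  r1free : ∀ a j, 0 < j → j < n - 1 → (r1 ^ j) a ≠ a
  r2n : r2 ^ (n - 2) = 1
  w1 : ∀ i a b, i + 1 ≤ M → p i = some a → p (i + 1) = some b → b = r a
  w2 : ∀ i a b, i + 2 ≤ M → p i = some a → p (i + 1) = none → p (i + 2) = some b → b = r1 (r a)
  w3 : ∀ i a b, i + 3 ≤ M → p i = some a → p (i + 1) = none → p (i + 2) = none →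
    p (i + 3) = some b → b = r1 (r1 (r a)) ∨ b = r2 (r1 (r a)) ∨
      ∃ y, (∃ k : ℕ, (r1 ^ k) b = y) ∧ ∃ k j : ℕ, (r ^ j) y = (r1 ^ k) (r a)
  surj : ∀ a, ∃ i, i ≤ M ∧ p i = some a
  out : ∀ i a, p i = some a → i ≤ M

/-- `b` is obtained from `a` by iterating `g`. -/
def Orb (g : Equiv.Perm X) (a b : X) : Prop := ∃ k : ℕ, (g ^ k) a = b

lemma Orb.refl (g : Equiv.Perm X) (a : X) : Orb g a a := ⟨0, rfl⟩

lemma Orb.trans {g : Equiv.Perm X} {a b c : X} (h : Orb g a b) (h' : Orb g b c) : Orb g a c := by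
  obtain ⟨k, rfl⟩ := h
  obtain ⟨l, rfl⟩ := h'
  exact ⟨l + k, by rw [pow_add]; rfl⟩

lemma Orb.symm {g : Equiv.Perm X} {m : ℕ} (hm : g ^ m = 1) (hm0 : 0 < m) {a b : X}
    (h : Orb g a b) : Orb g b a := by
  obtain ⟨k, rfl⟩ := h
  refine ⟨m * k - k, ?_⟩
  rw [← Equiv.Perm.mul_apply, ← pow_add]
  have : m * k - k + k = m * k := Nat.sub_add_cancel (Nat.le_mul_of_pos_left k hm0)
  rw [this, pow_mul, hm, one_pow]
  rfl

lemma orb_lt {g : Equiv.Perm X} {m : ℕ} (hm : g ^ m = 1) (hm0 : 0 < m) {a b : X}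
    (h : Orb g a b) : ∃ k, k < m ∧ (g ^ k) a = b := by
  obtain ⟨k, rfl⟩ := h
  refine ⟨k % m, Nat.mod_lt _ hm0, ?_⟩
  conv_rhs => rw [← Nat.div_add_mod k m, pow_add, pow_mul, hm, one_pow, one_mul]

lemma Orb.step (g : Equiv.Perm X) (a : X) : Orb g a (g a) := ⟨1, by simp⟩

section walk

variable {n M : ℕ} {r r1 r2 : Equiv.Perm X} {p : ℕ → Option X}

/-- An entry: a position with a permutation which is not preceded by a permutation. -/
def Ent (M : ℕ) (p : ℕ → Option X) (q : ℕ) (a : X) : Prop :=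
  q ≤ M ∧ p q = some a ∧ ∀ i, q = i + 1 → p i = none

open Classical in
/-- The first position of a permutation. -/
noncomputable def fst (W : Walk n M r r1 r2 p) (a : X) : ℕ := Nat.find (W.surj a)

section basic

variable (W : Walk n M r r1 r2 p)
include W

lemma fst_le (a : X) : fst W a ≤ M := by
  classical
  exact (Nat.find_spec (W.surj a)).1

lemma fst_at (a : X) : p (fst W a) = some a := by
  classical
  exact (Nat.find_spec (W.surj a)).2

lemma fst_min {a : X} {i : ℕ} (hi : i ≤ M) (h : p i = some a) : fst W a ≤ i := by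
  classical
  exact Nat.find_min' (W.surj a) ⟨hi, h⟩

lemma fst_inj {a b : X} (h : fst W a = fst W b) : a = b := by
  have h1 := fst_at W a
  rw [h, fst_at W b] at h1
  exact (Option.some_injective _ h1).symm

/-- the first visited element of its `r`-orbit -/
def First (a : X) : Prop := ∀ b, Orb r a b → fst W a ≤ fst W b

/-- the first entry of a 2-loop -/
def LeadAt (_W : Walk n M r r1 r2 p) (q : ℕ) (a : X) : Prop :=
  Ent M p q a ∧ ∀ q' b, Ent M p q' b → Orb r1 a b → q ≤ q'

lemma npos : 0 < n := lt_of_lt_of_le (by norm_num) W.hn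

lemma First.uniq {a b : X} (ha : First W a) (hb : First W b) (h : Orb r a b) : a = b :=
  fst_inj W (le_antisymm (ha b h) (hb a (h.symm W.rn (npos W))))

lemma first_ent {a : X} (ha : First W a) : Ent M p (fst W a) a := by
  refine ⟨fst_le W a, fst_at W a, ?_⟩
  intro i hi
  by_contra hne
  obtain ⟨c, hc⟩ := Option.ne_none_iff_exists'.1 hne
  have h1 : a = r c := W.w1 i c a (by rw [← hi]; exact fst_le W a) hc (by rw [← hi]; exact fst_at W a)
  have h2 : Orb r c a := ⟨1, by rw [h1]; simp⟩
  have h3 := ha c (h2.symm W.rn (npos W))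
  have h4 := fst_min W (show i ≤ M by have := fst_le W a; omega) hc
  omega

/-- every position with a permutation lies in a run starting at an entry -/
lemma run_start : ∀ (i : ℕ) (b : X), i ≤ M → p i = some b → ∃ q a, q ≤ i ∧ Ent M p q a ∧
    (∀ j, q ≤ j → j ≤ i → p j = some ((r ^ (j - q)) a)) := by
  intro i
  induction i with
  | zero =>
    intro b _ hb
    refine ⟨0, b, le_rfl, ⟨Nat.zero_le _, hb, fun i hi => by omega⟩, ?_⟩
    intro j _ hj
    have : j = 0 := by omega
    subst this
    simpa using hb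
  | succ i ih =>
    intro b hi hb
    by_cases hp : p i = none
    · refine ⟨i + 1, b, le_rfl, ⟨hi, hb, fun k hk => ?_⟩, ?_⟩
      · have : k = i := by omega
        rw [this]; exact hp
      · intro j h1 h2
        have : j = i + 1 := by omega
        subst this
        simpa using hb
    · obtain ⟨c, hc⟩ := Option.ne_none_iff_exists'.1 hp
      obtain ⟨q, a, hq, hE, hrun⟩ := ih c (by omega) hc
      refine ⟨q, a, by omega, hE, ?_⟩
      intro j h1 h2
      rcases Nat.lt_or_ge j (i + 1) with h | h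
      · exact hrun j h1 (by omega)
      · have hj : j = i + 1 := by omega
        subst hj
        have h3 := hrun i hq le_rfl
        rw [hc] at h3
        have h4 : b = r c := W.w1 i c b hi hc hb
        have h5 : c = (r ^ (i - q)) a := Option.some_injective _ h3
        have h6 : i + 1 - q = (i - q) + 1 := by omega
        rw [hb, h4, h5, h6, pow_succ', Equiv.Perm.mul_apply]

/-- every entry lies in a 2-loop with a first entry -/
lemma exists_lead {q : ℕ} {y : X} (h : Ent M p q y) : ∃ q' a, LeadAt W q' a ∧ Orb r1 a y := by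
  classical
  have hr1 : 0 < n - 1 := by have := W.hn; omega
  have hex : ∃ q', ∃ b, Ent M p q' b ∧ Orb r1 y b := ⟨q, y, h, Orb.refl _ _⟩
  obtain ⟨b, hb, hyb⟩ := Nat.find_spec hex
  refine ⟨Nat.find hex, b, ⟨hb, ?_⟩, hyb.symm W.r1n hr1⟩
  intro q' c hc hbc
  exact Nat.find_min' hex ⟨c, hc, hyb.trans hbc⟩

lemma LeadAt.uniq {q q' : ℕ} {a b : X} (ha : LeadAt W q a) (hb : LeadAt W q' b)
    (h : Orb r1 a b) : q = q' := by
  have hr1 : 0 < n - 1 := by have := W.hn; omega
  exact le_antisymm (ha.2 q' b hb.1 h) (hb.2 q a ha.1 (h.symm W.r1n hr1))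

lemma LeadAt.elt {q : ℕ} {a b : X} (ha : LeadAt W q a) (hb : LeadAt W q b) : a = b := by
  have h1 := ha.1.2.1
  rw [hb.1.2.1] at h1
  exact (Option.some_injective _ h1).symm

end basic

/-- The three kinds of useful positions. -/
def PT (W : Walk n M r r1 r2 p) (t : ℕ) : Prop := ∃ a, p t = some a ∧ fst W a = t

/-- the position after the completion of an `r`-orbit -/
def CT (W : Walk n M r r1 r2 p) (t : ℕ) : Prop :=
  ∃ s a, t = s + 1 ∧ p s = some a ∧ fst W a = s ∧ ∀ b, Orb r a b → fst W b ≤ s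

/-- the position before the first entry of a 2-loop -/
def TT (W : Walk n M r r1 r2 p) (t : ℕ) : Prop := ∃ a, LeadAt W (t + 1) a

/-- a wasted position -/
def Wst (W : Walk n M r r1 r2 p) (t : ℕ) : Prop := t ≤ M ∧ ¬ PT W t ∧ ¬ CT W t ∧ ¬ TT W t

section disj

variable (W : Walk n M r r1 r2 p)
include W

lemma not_PT_CT {t : ℕ} (ht : t ≤ M) (h1 : PT W t) (h2 : CT W t) : False := by
  obtain ⟨b, hb, hbt⟩ := h1
  obtain ⟨s, a, rfl, ha, has, hall⟩ := h2
  have h3 : b = r a := W.w1 s a b ht ha hb
  have h4 := hall b ⟨1, by rw [h3]; simp⟩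
  omega

lemma TT_none {t : ℕ} (h : TT W t) : p t = none := by
  obtain ⟨a, ha⟩ := h
  exact ha.1.2.2 t rfl

lemma not_PT_TT {t : ℕ} (h1 : PT W t) (h2 : TT W t) : False := by
  obtain ⟨b, hb, _⟩ := h1
  rw [TT_none W h2] at hb
  cases hb

lemma not_CT_TT {t : ℕ} (h1 : CT W t) (h2 : TT W t) : False := by
  have hn := W.hn
  have ht := TT_none W h2
  obtain ⟨s, a, rfl, ha, has, hall⟩ := h1
  obtain ⟨b, hb⟩ := h2
  have h3 : b = r1 (r a) := W.w2 s a b hb.1.1 ha ht hb.1.2.1
  -- `r a` was visited before, as an entry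
  have h4 : fst W (r a) ≤ s := hall (r a) (Orb.step r a)
  have h5 : fst W (r a) ≠ s := by
    intro h
    rw [← has] at h
    have := fst_inj W h
    exact W.rfree a 1 (by norm_num) (by omega) (by simpa using this)
  have h6 : Ent M p (fst W (r a)) (r a) := by
    refine ⟨fst_le W _, fst_at W _, ?_⟩
    intro i hi
    by_contra hne
    obtain ⟨c, hc⟩ := Option.ne_none_iff_exists'.1 hne
    have h7 : r a = r c := W.w1 i c (r a) (by rw [← hi]; exact fst_le W _) hc
      (by rw [← hi]; exact fst_at W _)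
    have h8 : a = c := r.injective h7
    rw [← h8] at hc
    have h9 := fst_min W (show i ≤ M by have := fst_le W (r a); omega) hc
    omega
  have hr1 : 0 < n - 1 := by omega
  have h7 : Orb r1 b (r a) := by
    have : Orb r1 (r a) b := ⟨1, by rw [h3]; simp⟩
    exact this.symm W.r1n hr1
  have h8 := hb.2 _ _ h6 h7
  omega

end disj

end walk

end Pool.Agent.V5helper14.SP
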