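import Pool.Agent.V5helper14.SPCore

set_option autoImplicit false

namespace Pool.Agent.V5helper14.SP

open Finset

/-- comparison of cardinalities through a relation -/
lemma card_le_of_rel {α β : Type} {A : Finset α} {B : Finset β} (R : α → β → Prop)
    (h : ∀ a ∈ A, ∃ b ∈ B, R a b)
    (inj : ∀ a ∈ A, ∀ a' ∈ A, ∀ b, R a b → R a' b → a = a') : A.card ≤ B.card := by
  classical
  choose f hf hR using h
  rw [← Finset.card_attach]
  refine Finset.card_le_card_of_injOn (fun a => f a.1 a.2) (fun a _ => hf a.1 a.2) ?_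
  intro a _ a' _ haa
  apply Subtype.ext
  have h1 := hR a.1 a.2
  have h2 := hR a'.1 a'.2
  simp only at haa
  rw [← haa] at h2
  exact inj a.1 a.2 a'.1 a'.2 _ h1 h2

section cnt

variable {X : Type} [Fintype X] {n M : ℕ} {r r1 r2 : Equiv.Perm X} {p : ℕ → Option X}

open Classical in
/-- positions of the first entries of the 2-loops -/
noncomputable def Q1 (W : Walk n M r r1 r2 p) : Finset ℕ :=
  (range (M + 1)).filter (fun q => ∃ a, LeadAt W q a)

open Classical in
/-- the first visited elements of the `r`-orbits -/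
noncomputable def FF (W : Walk n M r r1 r2 p) : Finset X := univ.filter (fun a => First W a)

open Classical in
/-- elements of entered 2-loops that are not the first visited in their `r`-orbit -/
noncomputable def DD (W : Walk n M r r1 r2 p) : Finset X :=
  univ.filter (fun y => (∃ q a, LeadAt W q a ∧ Orb r1 a y) ∧ ¬ First W y)

open Classical in
/-- wasted positions -/
noncomputable def WW (W : Walk n M r r1 r2 p) : Finset ℕ :=
  (range (M + 1)).filter (fun t => Wst W t)

variable (W : Walk n M r r1 r2 p)

lemma mem_Q1 {q : ℕ} : q ∈ Q1 W ↔ ∃ a, LeadAt W q a := by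
  classical
  unfold Q1
  rw [mem_filter, mem_range]
  constructor
  · exact fun h => h.2
  · rintro ⟨a, ha⟩
    exact ⟨Nat.lt_succ_of_le ha.1.1, a, ha⟩

lemma mem_FF {a : X} : a ∈ FF W ↔ First W a := by
  classical
  unfold FF
  simp

lemma mem_DD {y : X} : y ∈ DD W ↔ (∃ q a, LeadAt W q a ∧ Orb r1 a y) ∧ ¬ First W y := by
  classical
  unfold DD
  simp

omit [Fintype X] in
lemma mem_WW {t : ℕ} : t ∈ WW W ↔ Wst W t := by
  classical
  unfold WW
  rw [mem_filter, mem_range]
  constructor
  · exact fun h => h.2
  · intro h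
    exact ⟨Nat.lt_succ_of_le h.1, h⟩

/-- every orbit has a first visited element -/
lemma exists_first (x : X) : ∃ a, First W a ∧ Orb r a x := by
  classical
  have hn := npos W
  have hne : (univ.filter (fun b => Orb r x b)).Nonempty := ⟨x, by simp [Orb.refl]⟩
  obtain ⟨a, ha, hmin⟩ := exists_min_image _ (fst W) hne
  rw [mem_filter] at ha
  refine ⟨a, ?_, ha.2.symm W.rn hn⟩
  intro b hb
  exact hmin b (by rw [mem_filter]; exact ⟨mem_univ _, ha.2.trans hb⟩)

include W in
lemma pow_inj_free {a : X} {i j : ℕ} (hi : i < n) (hj : j < n) (h : (r ^ i) a = (r ^ j) a) :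
    i = j := by
  have key : ∀ i j : ℕ, i < j → j < n → (r ^ i) a = (r ^ j) a → False := by
    intro i j hij hj h
    have h1 : (r ^ j) a = (r ^ i) ((r ^ (j - i)) a) := by
      rw [← Equiv.Perm.mul_apply, ← pow_add]
      congr 2
      omega
    rw [h1] at h
    exact W.rfree a (j - i) (by omega) (by omega) ((r ^ i).injective h).symm
  rcases lt_trichotomy i j with h' | h' | h'
  · exact (key i j h' hj h).elim
  · exact h'
  · exact (key j i h' hi h.symm).elim

include W in
lemma pow_inj_free1 {a : X} {i j : ℕ} (hi : i < n - 1) (hj : j < n - 1)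
    (h : (r1 ^ i) a = (r1 ^ j) a) : i = j := by
  have key : ∀ i j : ℕ, i < j → j < n - 1 → (r1 ^ i) a = (r1 ^ j) a → False := by
    intro i j hij hj h
    have h1 : (r1 ^ j) a = (r1 ^ i) ((r1 ^ (j - i)) a) := by
      rw [← Equiv.Perm.mul_apply, ← pow_add]
      congr 2
      omega
    rw [h1] at h
    exact W.r1free a (j - i) (by omega) (by omega) ((r1 ^ i).injective h).symm
  rcases lt_trichotomy i j with h' | h' | h'
  · exact (key i j h' hj h).elim
  · exact h'
  · exact (key j i h' hi h.symm).elim

lemma card_X : Fintype.card X = n * (FF W).card := by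
  classical
  have hn := npos W
  have h : (univ : Finset X).card = (range n ×ˢ FF W).card := by
    symm
    apply Finset.card_bij (fun x _ => (r ^ x.1) x.2)
    · intro x _
      exact mem_univ _
    · rintro ⟨i, a⟩ hx ⟨j, b⟩ hy hxy
      rw [mem_product, mem_range, mem_FF] at hx hy
      simp only at hxy hx hy
      have hab : a = b := by
        apply First.uniq W hx.2 hy.2
        have h1 : Orb r a ((r ^ i) a) := ⟨i, rfl⟩
        have h2 : Orb r b ((r ^ j) b) := ⟨j, rfl⟩
        rw [hxy] at h1
        exact h1.trans (h2.symm W.rn hn)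
      subst hab
      have := pow_inj_free W hx.1 hy.1 hxy
      rw [this]
    · intro x _
      obtain ⟨a, ha, hax⟩ := exists_first W x
      obtain ⟨k, hk, hkx⟩ := orb_lt W.rn hn hax
      exact ⟨(k, a), by rw [mem_product, mem_range, mem_FF]; exact ⟨hk, ha⟩, hkx⟩
  rw [← Finset.card_univ, h, card_product, card_range]

lemma card_DF : (DD W).card + (FF W).card ≤ (n - 1) * (Q1 W).card := by
  classical
  have hn := W.hn
  have hdisj : Disjoint (DD W) (FF W) := by
    rw [Finset.disjoint_left]
    intro y hy hy'
    rw [mem_DD] at hy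
    rw [mem_FF] at hy'
    exact hy.2 hy'
  rw [← card_union_of_disjoint hdisj]
  have h1 : (DD W ∪ FF W).card ≤ (range (n - 1) ×ˢ Q1 W).card := by
    apply card_le_of_rel (fun y x => ∃ a, LeadAt W x.2 a ∧ (r1 ^ x.1) a = y)
    · intro y hy
      have hled : ∃ q a, LeadAt W q a ∧ Orb r1 a y := by
        rw [mem_union] at hy
        rcases hy with hy | hy
        · exact ((mem_DD W).1 hy).1
        · have := first_ent W ((mem_FF W).1 hy)
          exact exists_lead W this
      obtain ⟨q, a, hq, hay⟩ := hled
      obtain ⟨k, hk, hky⟩ := orb_lt W.r1n (by omega) hay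
      refine ⟨(k, q), ?_, a, hq, hky⟩
      rw [mem_product, mem_range, mem_Q1]
      exact ⟨hk, a, hq⟩
    · rintro y _ y' _ ⟨k, q⟩ ⟨a, ha, hay⟩ ⟨b, hb, hby⟩
      have := LeadAt.elt W ha hb
      subst this
      simp only at hay hby
      rw [← hay, ← hby]
  rwa [card_product, card_range] at h1

open Classical in
/-- the last position at which the orbit is visited for the first time -/
noncomputable def lst (W : Walk n M r r1 r2 p) (a : X) : ℕ :=
  (univ.filter (fun b => Orb r a b)).sup (fst W)

lemma lst_spec (a : X) : ∃ b, Orb r a b ∧ fst W b = lst W a ∧ ∀ c, Orb r a c → fst W c ≤ lst W a := by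
  classical
  have hne : (univ.filter (fun b => Orb r a b)).Nonempty := ⟨a, by simp [Orb.refl]⟩
  obtain ⟨b, hb, hs⟩ := exists_mem_eq_sup _ hne (fst W)
  rw [mem_filter] at hb
  refine ⟨b, hb.2, ?_, ?_⟩
  · unfold lst
    exact hs.symm
  · intro c hc
    unfold lst
    apply Finset.le_sup (f := fst W)
    rw [mem_filter]
    exact ⟨mem_univ _, hc⟩

lemma card_pos : Fintype.card X + (FF W).card + (Q1 W).card + (WW W).card ≤ M + 3 := by
  classical
  have hn := npos W
  set P : Finset ℕ := (univ : Finset X).image (fst W) with hP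
  set S : Finset ℕ := (FF W).image (lst W) with hS
  set C : Finset ℕ := (S.erase M).image (fun s => s + 1) with hC
  set T : Finset ℕ := ((Q1 W).erase 0).image (fun q => q - 1) with hT
  have cP : P.card = Fintype.card X := by
    rw [hP, card_image_of_injective _ (fun a b h => fst_inj W h), card_univ]
  have cS : S.card = (FF W).card := by
    rw [hS]
    apply card_image_of_injOn
    intro a ha b hb hab
    rw [Finset.mem_coe, mem_FF] at ha hb
    obtain ⟨a', h1, h2, _⟩ := lst_spec W a
    obtain ⟨b', h3, h4, _⟩ := lst_spec W b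
    have h5 : a' = b' := fst_inj W (by rw [h2, h4]; exact hab)
    subst h5
    exact First.uniq W ha hb (h1.trans (h3.symm W.rn hn))
  have cC : (FF W).card ≤ C.card + 1 := by
    rw [hC, card_image_of_injective _ (fun a b h => by simpa using h)]
    have := Finset.pred_card_le_card_erase (s := S) (a := M)
    omega
  have cT : (Q1 W).card ≤ T.card + 1 := by
    rw [hT, card_image_of_injOn]
    · have := Finset.pred_card_le_card_erase (s := Q1 W) (a := 0)
      omega
    · intro a ha b hb hab
      simp only [coe_erase, Set.mem_sdiff, Finset.mem_coe, Set.mem_singleton_iff] at ha hb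
      simp only at hab
      omega
  have mP : ∀ t ∈ P, t ≤ M ∧ PT W t := by
    intro t ht
    rw [hP, mem_image] at ht
    obtain ⟨a, _, rfl⟩ := ht
    exact ⟨fst_le W a, a, fst_at W a, rfl⟩
  have mC : ∀ t ∈ C, t ≤ M ∧ CT W t := by
    intro t ht
    rw [hC, mem_image] at ht
    obtain ⟨s, hs, rfl⟩ := ht
    rw [mem_erase, hS, mem_image] at hs
    obtain ⟨hsM, a, ha, rfl⟩ := hs
    obtain ⟨b, h1, h2, h3⟩ := lst_spec W a
    have h4 := fst_le W b
    refine ⟨by omega, lst W a, b, rfl, ?_, h2, ?_⟩
    · rw [← h2]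
      exact fst_at W b
    · intro c hc
      exact h3 c (h1.trans hc)
  have mT : ∀ t ∈ T, t ≤ M ∧ TT W t := by
    intro t ht
    rw [hT, mem_image] at ht
    obtain ⟨q, hq, rfl⟩ := ht
    rw [mem_erase, mem_Q1] at hq
    obtain ⟨hq0, a, ha⟩ := hq
    have h1 := ha.1.1
    refine ⟨by omega, a, ?_⟩
    have : q - 1 + 1 = q := by omega
    rw [this]
    exact ha
  have mW : ∀ t ∈ WW W, t ≤ M ∧ Wst W t := by
    intro t ht
    rw [mem_WW] at ht
    exact ⟨ht.1, ht⟩
  have d1 : Disjoint P C := by
    rw [Finset.disjoint_left]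
    intro t h1 h2
    exact not_PT_CT W (mP t h1).1 (mP t h1).2 (mC t h2).2
  have d2 : Disjoint (P ∪ C) T := by
    rw [Finset.disjoint_left]
    intro t h1 h2
    rw [mem_union] at h1
    rcases h1 with h1 | h1
    · exact not_PT_TT W (mP t h1).2 (mT t h2).2
    · exact not_CT_TT W (mC t h1).2 (mT t h2).2
  have d3 : Disjoint (P ∪ C ∪ T) (WW W) := by
    rw [Finset.disjoint_left]
    intro t h1 h2
    have h3 := (mW t h2).2
    rw [mem_union, mem_union] at h1
    rcases h1 with (h1 | h1) | h1
    · exact h3.2.1 (mP t h1).2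
    · exact h3.2.2.1 (mC t h1).2
    · exact h3.2.2.2 (mT t h1).2
  have hsub : P ∪ C ∪ T ∪ WW W ⊆ range (M + 1) := by
    intro t ht
    rw [mem_range]
    rw [mem_union, mem_union, mem_union] at ht
    rcases ht with ((ht | ht) | ht) | ht
    · have := (mP t ht).1; omega
    · have := (mC t ht).1; omega
    · have := (mT t ht).1; omega
    · have := (mW t ht).1; omega
  have hc := card_le_card hsub
  rw [card_union_of_disjoint d3, card_union_of_disjoint d2, card_union_of_disjoint d1,
    card_range] at hc
  omega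

end cnt

end Pool.Agent.V5helper14.SP
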