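import Pool.Agent.V5helper14.SPMain

set_option autoImplicit false

namespace Pool.Agent.V5helper14.SP

open Equiv

/-- value of the cyclic shift of `0, …, k` -/
def rv (k v : ℕ) : ℕ := if v < k then v + 1 else if v = k then 0 else v

/-- the rotation of the positions `0, …, k` -/
def cyc {n : ℕ} (k : ℕ) (hk : k < n) : Perm (Fin n) := Fin.cycleRange ⟨k, hk⟩

lemma coe_cyc {n k : ℕ} (hk : k < n) (x : Fin n) : (cyc k hk x : ℕ) = rv k x := by
  unfold cyc rv
  split_ifs with h1 h2
  · exact Fin.coe_cycleRange_of_lt (by rw [Fin.lt_def]; exact h1)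
  · rw [Fin.coe_cycleRange_of_le (by rw [Fin.le_def]; exact h2.le), if_pos (Fin.ext h2)]
  · rw [Fin.cycleRange_of_gt (by rw [Fin.lt_def]; show k < x; omega)]

lemma succ_mod' (x k : ℕ) (hk : 0 < k) :
    (x + 1) % k = if x % k + 1 = k then 0 else x % k + 1 := by
  rw [← Nat.mod_add_mod]
  split_ifs with h
  · rw [h, Nat.mod_self]
  · apply Nat.mod_eq_of_lt
    have := Nat.mod_lt x hk
    omega

lemma coe_cyc_pow {n k : ℕ} (hk : k < n) (m : ℕ) (x : Fin n) :
    (((cyc k hk) ^ m) x : ℕ) = if (x : ℕ) ≤ k then (x + m) % (k + 1) else x := by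
  induction m with
  | zero =>
    split_ifs with h
    · simp only [pow_zero, Perm.one_apply, add_zero]
      rw [Nat.mod_eq_of_lt (by omega)]
    · simp
  | succ m ih =>
    rw [pow_succ', Perm.mul_apply, coe_cyc, ih]
    split_ifs with h
    · rw [← add_assoc, succ_mod' (x + m) (k + 1) (by omega)]
      have := Nat.mod_lt (x + m) (show 0 < k + 1 by omega)
      unfold rv
      split_ifs <;> omega
    · unfold rv
      split_ifs <;> omega

lemma cyc_pow_eq_one {n k : ℕ} (hk : k < n) : (cyc k hk) ^ (k + 1) = 1 := by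
  ext x
  rw [coe_cyc_pow]
  split_ifs with h
  · rw [Nat.add_mod_right, Nat.mod_eq_of_lt (by omega)]
    simp
  · simp

lemma cyc_pow_zero {n k m : ℕ} (hk : k < n) (hm : m ≤ k) :
    (((cyc k hk) ^ m) ⟨0, by omega⟩ : ℕ) = m := by
  rw [coe_cyc_pow]
  simp only [zero_le, if_true, zero_add]
  exact Nat.mod_eq_of_lt (by omega)

/-- the permutation `a` can be read in `w` at position `i` -/
def Occ {n : ℕ} (w : List (Fin n)) (i : ℕ) (a : Perm (Fin n)) : Prop :=
  ∀ j (h : j < n), w[i + j]? = some (a ⟨j, h⟩)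

lemma Occ.uniq {n : ℕ} {w : List (Fin n)} {i : ℕ} {a b : Perm (Fin n)} (ha : Occ w i a)
    (hb : Occ w i b) : a = b := by
  ext1 x
  have h1 := ha x x.2
  rw [hb x x.2] at h1
  exact (Option.some_injective _ h1).symm

/-- overlap of two windows -/
lemma Occ.overlap {n : ℕ} {w : List (Fin n)} {i d : ℕ} {a b : Perm (Fin n)} (ha : Occ w i a)
    (hb : Occ w (i + d) b) {x : ℕ} (hx : x + d < n) : b ⟨x, by omega⟩ = a ⟨x + d, hx⟩ := by
  have h1 := ha (x + d) hx
  have h2 := hb x (by omega)
  have h3 : i + d + x = i + (x + d) := by omega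
  rw [h3, h1] at h2
  exact (Option.some_injective _ h2).symm

lemma Occ.tail {n : ℕ} {w : List (Fin n)} {i d : ℕ} {a b : Perm (Fin n)} (ha : Occ w i a)
    (hb : Occ w (i + d) b) {x : ℕ} (hx : x < n) (hxd : n ≤ x + d) :
    ∃ y, ∃ hy : y < n, y < d ∧ b ⟨x, hx⟩ = a ⟨y, hy⟩ := by
  obtain ⟨z, hz⟩ := a.surjective (b ⟨x, hx⟩)
  refine ⟨z, z.2, ?_, hz.symm⟩
  by_contra hcon
  have h1 : (z - d : ℕ) + d < n := by have := z.2; omega
  have h2 := Occ.overlap ha hb h1
  have h3 : (⟨(z : ℕ) - d + d, h1⟩ : Fin n) = z := by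
    apply Fin.ext
    show (z : ℕ) - d + d = z
    omega
  rw [h3, hz] at h2
  have h4 := b.injective h2
  have h5 := congrArg Fin.val h4
  simp only at h5
  have := z.2
  omega

lemma cyc_mk {n k : ℕ} (hk : k < n) {v u : ℕ} (hv : v < n) (hu : u < n) (h : rv k v = u) :
    cyc k hk ⟨v, hv⟩ = ⟨u, hu⟩ := by
  apply Fin.ext
  rw [coe_cyc]
  exact h

section windows

variable {n : ℕ} {w : List (Fin n)}

/-- the three rotations -/
def R0 (n : ℕ) (hn : 3 ≤ n) : Perm (Fin n) := cyc (n - 1) (by omega)
/-- rotation of all but the last position -/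
def R1 (n : ℕ) (hn : 3 ≤ n) : Perm (Fin n) := cyc (n - 2) (by omega)
/-- rotation of all but the last two positions -/
def R2 (n : ℕ) (hn : 3 ≤ n) : Perm (Fin n) := cyc (n - 3) (by omega)

lemma occ_w1 (hn : 3 ≤ n) {i : ℕ} {a b : Perm (Fin n)} (ha : Occ w i a) (hb : Occ w (i + 1) b) :
    b = a * R0 n hn := by
  have key : ∀ x (hx : x < n), x + 1 < n → b ⟨x, hx⟩ = (a * R0 n hn) ⟨x, hx⟩ := by
    intro x hx hx1
    rw [Occ.overlap ha hb hx1, Perm.mul_apply]
    congr 1
    symm
    apply cyc_mk
    unfold rv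
    split_ifs <;> omega
  have hlast : b ⟨n - 1, by omega⟩ = (a * R0 n hn) ⟨n - 1, by omega⟩ := by
    obtain ⟨y, hy, hy1, h⟩ := Occ.tail ha hb (show n - 1 < n by omega) (by omega)
    rw [h, Perm.mul_apply]
    congr 1
    symm
    apply cyc_mk
    unfold rv
    split_ifs <;> omega
  ext1 x
  rcases Nat.lt_or_ge (x + 1) n with h | h
  · exact key x x.2 h
  · have : x = ⟨n - 1, by omega⟩ := Fin.ext (by have := x.2; show (x : ℕ) = n - 1; omega)
    rw [this]
    exact hlast

/-- if the letter after the window of `a` is `a 0`, then the next window is a permutation -/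
lemma occ_next (hn : 3 ≤ n) {i : ℕ} {a : Perm (Fin n)} (ha : Occ w i a)
    (h : w[i + n]? = some (a ⟨0, by omega⟩)) : Occ w (i + 1) (a * R0 n hn) := by
  intro j hj
  rw [Perm.mul_apply]
  rcases Nat.lt_or_ge (j + 1) n with h1 | h1
  · have h2 : R0 n hn ⟨j, hj⟩ = ⟨j + 1, h1⟩ := by
      apply cyc_mk
      unfold rv
      split_ifs <;> omega
    rw [h2]
    have h3 := ha (j + 1) h1
    have h4 : i + 1 + j = i + (j + 1) := by omega
    rw [h4]
    exact h3
  · have h2 : R0 n hn ⟨j, hj⟩ = ⟨0, by omega⟩ := by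
      apply cyc_mk
      unfold rv
      split_ifs <;> omega
    rw [h2]
    have h4 : i + 1 + j = i + n := by omega
    rw [h4]
    exact h

/-- the letters after the window -/
lemma occ_next2 (hn : 3 ≤ n) {i : ℕ} {a : Perm (Fin n)} (ha : Occ w i a)
    (h : w[i + n]? = some (a ⟨1, by omega⟩)) (h' : w[i + n + 1]? = some (a ⟨0, by omega⟩)) :
    Occ w (i + 2) (a * R0 n hn * R1 n hn) := by
  intro j hj
  rw [Perm.mul_apply, Perm.mul_apply]
  rcases Nat.lt_or_ge (j + 2) n with h1 | h1
  · have h2 : R1 n hn ⟨j, hj⟩ = ⟨j + 1, by omega⟩ := by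
      apply cyc_mk
      unfold rv
      split_ifs <;> omega
    have h2' : R0 n hn ⟨j + 1, by omega⟩ = ⟨j + 2, h1⟩ := by
      apply cyc_mk
      unfold rv
      split_ifs <;> omega
    rw [h2, h2']
    have h3 := ha (j + 2) h1
    have h4 : i + 2 + j = i + (j + 2) := by omega
    rw [h4]
    exact h3
  · rcases Nat.lt_or_ge (j + 1) n with h5 | h5
    · have h2 : R1 n hn ⟨j, hj⟩ = ⟨0, by omega⟩ := by
        apply cyc_mk
        unfold rv
        split_ifs <;> omega
      have h2' : R0 n hn ⟨0, by omega⟩ = ⟨1, by omega⟩ := by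
        apply cyc_mk
        unfold rv
        split_ifs <;> omega
      rw [h2, h2']
      have h4 : i + 2 + j = i + n := by omega
      rw [h4]
      exact h
    · have h2 : R1 n hn ⟨j, hj⟩ = ⟨n - 1, by omega⟩ := by
        apply cyc_mk
        unfold rv
        split_ifs <;> omega
      have h2' : R0 n hn ⟨n - 1, by omega⟩ = ⟨0, by omega⟩ := by
        apply cyc_mk
        unfold rv
        split_ifs <;> omega
      rw [h2, h2']
      have h4 : i + 2 + j = i + n + 1 := by omega
      rw [h4]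
      exact h'

/-- two permutations with the same values on the initial part and on the last three positions -/
lemma perm_ext3 (hn : 3 ≤ n) {b c : Perm (Fin n)}
    (h : ∀ x (hx : x + 3 < n), b ⟨x, by omega⟩ = c ⟨x, by omega⟩)
    (h3 : b ⟨n - 3, by omega⟩ = c ⟨n - 3, by omega⟩)
    (h2 : b ⟨n - 2, by omega⟩ = c ⟨n - 2, by omega⟩)
    (h1 : b ⟨n - 1, by omega⟩ = c ⟨n - 1, by omega⟩) : b = c := by
  ext1 x
  have hx := x.2
  rcases Nat.lt_or_ge (x + 3) n with h4 | h4
  · exact h x h4
  · have : (x : ℕ) = n - 3 ∨ (x : ℕ) = n - 2 ∨ (x : ℕ) = n - 1 := by omega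
    rcases this with h5 | h5 | h5
    · have : x = ⟨n - 3, by omega⟩ := Fin.ext h5
      rw [this]; exact h3
    · have : x = ⟨n - 2, by omega⟩ := Fin.ext h5
      rw [this]; exact h2
    · have : x = ⟨n - 1, by omega⟩ := Fin.ext h5
      rw [this]; exact h1

lemma occ_w2 (hn : 3 ≤ n) {i : ℕ} {a b : Perm (Fin n)} (ha : Occ w i a)
    (hno : ¬ ∃ c, Occ w (i + 1) c) (hb : Occ w (i + 2) b) :
    b = a * R0 n hn * R1 n hn := by
  -- values of `b` at the last two positions
  have hb2 := hb (n - 2) (by omega)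
  have e2 : i + 2 + (n - 2) = i + n := by omega
  rw [e2] at hb2
  have hne : b ⟨n - 2, by omega⟩ ≠ a ⟨0, by omega⟩ := by
    intro h
    apply hno
    rw [h] at hb2
    exact ⟨_, occ_next hn ha hb2⟩
  obtain ⟨y, hy, hy2, hby⟩ := Occ.tail ha hb (show n - 2 < n by omega) (by omega)
  obtain ⟨z, hz, hz2, hbz⟩ := Occ.tail ha hb (show n - 1 < n by omega) (by omega)
  have hy1 : y = 1 := by
    by_contra h
    have : y = 0 := by omega
    subst this
    exact hne hby
  subst hy1
  have hz0 : z = 0 := by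
    by_contra h
    have : z = 1 := by omega
    subst this
    rw [← hby] at hbz
    have := congrArg Fin.val (b.injective hbz)
    simp only at this
    omega
  subst hz0
  have hb3 := hb
  have key := hb3
  -- reconstruct the occurrence
  have hb1 := hb (n - 1) (by omega)
  have e1 : i + 2 + (n - 1) = i + n + 1 := by omega
  rw [e1, hbz] at hb1
  rw [hby] at hb2
  exact Occ.uniq hb (occ_next2 hn ha hb2 hb1)

lemma coe_R0 (hn : 3 ≤ n) (x : Fin n) : (R0 n hn x : ℕ) = rv (n - 1) x := coe_cyc _ _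
lemma coe_R1 (hn : 3 ≤ n) (x : Fin n) : (R1 n hn x : ℕ) = rv (n - 2) x := coe_cyc _ _
lemma coe_R2 (hn : 3 ≤ n) (x : Fin n) : (R2 n hn x : ℕ) = rv (n - 3) x := coe_cyc _ _

lemma coe_R0inv (hn : 3 ≤ n) (x : Fin n) :
    ((R0 n hn)⁻¹ x : ℕ) = if (x : ℕ) = 0 then n - 1 else x - 1 := by
  have hx := x.2
  have : (R0 n hn)⁻¹ x = ⟨if (x : ℕ) = 0 then n - 1 else x - 1, by split_ifs <;> omega⟩ := by
    rw [Perm.inv_eq_iff_eq]
    apply Fin.ext
    rw [coe_R0]
    unfold rv
    simp only
    split_ifs <;> omega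
  rw [this]

lemma R0_mk (hn : 3 ≤ n) {v u : ℕ} (hv : v < n) (hu : u < n) (h : rv (n - 1) v = u) :
    R0 n hn ⟨v, hv⟩ = ⟨u, hu⟩ := cyc_mk _ hv hu h
lemma R1_mk (hn : 3 ≤ n) {v u : ℕ} (hv : v < n) (hu : u < n) (h : rv (n - 2) v = u) :
    R1 n hn ⟨v, hv⟩ = ⟨u, hu⟩ := cyc_mk _ hv hu h
lemma R0inv_mk (hn : 3 ≤ n) {v u : ℕ} (hv : v < n) (hu : u < n)
    (h : (if v = 0 then n - 1 else v - 1) = u) :
    (R0 n hn)⁻¹ ⟨v, hv⟩ = ⟨u, hu⟩ := by
  apply Fin.ext
  rw [coe_R0inv]
  exact h

lemma R2_mk (hn : 3 ≤ n) {v u : ℕ} (hv : v < n) (hu : u < n) (h : rv (n - 3) v = u) :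
    R2 n hn ⟨v, hv⟩ = ⟨u, hu⟩ := cyc_mk _ hv hu h

lemma eqA (hn : 3 ≤ n) {a b : Perm (Fin n)}
    (ev : ∀ x (hx : x + 3 < n), b ⟨x, by omega⟩ = a ⟨x + 3, hx⟩)
    (h3 : b ⟨n - 3, by omega⟩ = a ⟨1, by omega⟩) (h2 : b ⟨n - 2, by omega⟩ = a ⟨2, by omega⟩)
    (h1 : b ⟨n - 1, by omega⟩ = a ⟨0, by omega⟩) :
    b = a * R0 n hn * R1 n hn * R1 n hn := by
  apply perm_ext3 hn
  · intro x hx
    rw [ev x hx]
    simp only [Perm.mul_apply]
    rw [R1_mk hn (v := x) (u := x + 1) (by omega) (by omega) (by simp only [rv]; split_ifs <;> omega),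
      R1_mk hn (v := x + 1) (u := x + 2) (by omega) (by omega) (by simp only [rv]; split_ifs <;> omega),
      R0_mk hn (v := x + 2) (u := x + 3) (by omega) (by omega) (by simp only [rv]; split_ifs <;> omega)]
  · rw [h3]
    simp only [Perm.mul_apply]
    rw [R1_mk hn (v := n - 3) (u := n - 2) (by omega) (by omega) (by simp only [rv]; split_ifs <;> omega),
      R1_mk hn (v := n - 2) (u := 0) (by omega) (by omega) (by simp only [rv]; split_ifs <;> omega),
      R0_mk hn (v := 0) (u := 1) (by omega) (by omega) (by simp only [rv]; split_ifs <;> omega)]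
  · rw [h2]
    simp only [Perm.mul_apply]
    rw [R1_mk hn (v := n - 2) (u := 0) (by omega) (by omega) (by simp only [rv]; split_ifs <;> omega),
      R1_mk hn (v := 0) (u := 1) (by omega) (by omega) (by simp only [rv]; split_ifs <;> omega),
      R0_mk hn (v := 1) (u := 2) (by omega) (by omega) (by simp only [rv]; split_ifs <;> omega)]
  · rw [h1]
    simp only [Perm.mul_apply]
    rw [R1_mk hn (v := n - 1) (u := n - 1) (by omega) (by omega) (by simp only [rv]; split_ifs <;> omega),
      R1_mk hn (v := n - 1) (u := n - 1) (by omega) (by omega) (by simp only [rv]; split_ifs <;> omega),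
      R0_mk hn (v := n - 1) (u := 0) (by omega) (by omega) (by simp only [rv]; split_ifs <;> omega)]

lemma eqC (hn : 3 ≤ n) {a b : Perm (Fin n)}
    (ev : ∀ x (hx : x + 3 < n), b ⟨x, by omega⟩ = a ⟨x + 3, hx⟩)
    (h3 : b ⟨n - 3, by omega⟩ = a ⟨2, by omega⟩) (h2 : b ⟨n - 2, by omega⟩ = a ⟨1, by omega⟩)
    (h1 : b ⟨n - 1, by omega⟩ = a ⟨0, by omega⟩) :
    b = a * R0 n hn * R1 n hn * R2 n hn := by
  apply perm_ext3 hn
  · intro x hx
    rw [ev x hx]
    simp only [Perm.mul_apply]
    rw [R2_mk hn (v := x) (u := x + 1) (by omega) (by omega) (by simp only [rv]; split_ifs <;> omega),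
      R1_mk hn (v := x + 1) (u := x + 2) (by omega) (by omega) (by simp only [rv]; split_ifs <;> omega),
      R0_mk hn (v := x + 2) (u := x + 3) (by omega) (by omega) (by simp only [rv]; split_ifs <;> omega)]
  · rw [h3]
    simp only [Perm.mul_apply]
    rw [R2_mk hn (v := n - 3) (u := 0) (by omega) (by omega) (by simp only [rv]; split_ifs <;> omega),
      R1_mk hn (v := 0) (u := 1) (by omega) (by omega) (by simp only [rv]; split_ifs <;> omega),
      R0_mk hn (v := 1) (u := 2) (by omega) (by omega) (by simp only [rv]; split_ifs <;> omega)]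
  · rw [h2]
    simp only [Perm.mul_apply]
    rw [R2_mk hn (v := n - 2) (u := n - 2) (by omega) (by omega) (by simp only [rv]; split_ifs <;> omega),
      R1_mk hn (v := n - 2) (u := 0) (by omega) (by omega) (by simp only [rv]; split_ifs <;> omega),
      R0_mk hn (v := 0) (u := 1) (by omega) (by omega) (by simp only [rv]; split_ifs <;> omega)]
  · rw [h1]
    simp only [Perm.mul_apply]
    rw [R2_mk hn (v := n - 1) (u := n - 1) (by omega) (by omega) (by simp only [rv]; split_ifs <;> omega),
      R1_mk hn (v := n - 1) (u := n - 1) (by omega) (by omega) (by simp only [rv]; split_ifs <;> omega),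
      R0_mk hn (v := n - 1) (u := 0) (by omega) (by omega) (by simp only [rv]; split_ifs <;> omega)]

lemma eqB (hn : 3 ≤ n) {a b : Perm (Fin n)}
    (ev : ∀ x (hx : x + 3 < n), b ⟨x, by omega⟩ = a ⟨x + 3, hx⟩)
    (h3 : b ⟨n - 3, by omega⟩ = a ⟨2, by omega⟩) (h2 : b ⟨n - 2, by omega⟩ = a ⟨0, by omega⟩)
    (h1 : b ⟨n - 1, by omega⟩ = a ⟨1, by omega⟩) :
    b = a * R0 n hn * R1 n hn * R1 n hn * (R0 n hn)⁻¹ * (R0 n hn)⁻¹ * R1 n hn * R1 n hn := by
  apply perm_ext3 hn
  · intro x hx
    rw [ev x hx]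
    simp only [Perm.mul_apply]
    rw [R1_mk hn (v := x) (u := x + 1) (by omega) (by omega) (by simp only [rv]; split_ifs <;> omega),
      R1_mk hn (v := x + 1) (u := x + 2) (by omega) (by omega) (by simp only [rv]; split_ifs <;> omega),
      R0inv_mk hn (v := x + 2) (u := x + 1) (by omega) (by omega) (by split_ifs <;> first | omega | (exfalso; assumption)),
      R0inv_mk hn (v := x + 1) (u := x) (by omega) (by omega) (by split_ifs <;> first | omega | (exfalso; assumption)),
      R1_mk hn (v := x) (u := x + 1) (by omega) (by omega) (by simp only [rv]; split_ifs <;> omega),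
      R1_mk hn (v := x + 1) (u := x + 2) (by omega) (by omega) (by simp only [rv]; split_ifs <;> omega),
      R0_mk hn (v := x + 2) (u := x + 3) (by omega) (by omega) (by simp only [rv]; split_ifs <;> omega)]
  · rw [h3]
    simp only [Perm.mul_apply]
    rw [R1_mk hn (v := n - 3) (u := n - 2) (by omega) (by omega) (by simp only [rv]; split_ifs <;> omega),
      R1_mk hn (v := n - 2) (u := 0) (by omega) (by omega) (by simp only [rv]; split_ifs <;> omega),
      R0inv_mk hn (v := 0) (u := n - 1) (by omega) (by omega) (by split_ifs <;> first | omega | (exfalso; assumption)),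
      R0inv_mk hn (v := n - 1) (u := n - 2) (by omega) (by omega) (by split_ifs <;> first | omega | (exfalso; assumption)),
      R1_mk hn (v := n - 2) (u := 0) (by omega) (by omega) (by simp only [rv]; split_ifs <;> omega),
      R1_mk hn (v := 0) (u := 1) (by omega) (by omega) (by simp only [rv]; split_ifs <;> omega),
      R0_mk hn (v := 1) (u := 2) (by omega) (by omega) (by simp only [rv]; split_ifs <;> omega)]
  · rw [h2]
    simp only [Perm.mul_apply]
    rw [R1_mk hn (v := n - 2) (u := 0) (by omega) (by omega) (by simp only [rv]; split_ifs <;> omega),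
      R1_mk hn (v := 0) (u := 1) (by omega) (by omega) (by simp only [rv]; split_ifs <;> omega),
      R0inv_mk hn (v := 1) (u := 0) (by omega) (by omega) (by split_ifs <;> first | omega | (exfalso; assumption)),
      R0inv_mk hn (v := 0) (u := n - 1) (by omega) (by omega) (by split_ifs <;> first | omega | (exfalso; assumption)),
      R1_mk hn (v := n - 1) (u := n - 1) (by omega) (by omega) (by simp only [rv]; split_ifs <;> omega),
      R1_mk hn (v := n - 1) (u := n - 1) (by omega) (by omega) (by simp only [rv]; split_ifs <;> omega),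
      R0_mk hn (v := n - 1) (u := 0) (by omega) (by omega) (by simp only [rv]; split_ifs <;> omega)]
  · rw [h1]
    simp only [Perm.mul_apply]
    rw [R1_mk hn (v := n - 1) (u := n - 1) (by omega) (by omega) (by simp only [rv]; split_ifs <;> omega),
      R1_mk hn (v := n - 1) (u := n - 1) (by omega) (by omega) (by simp only [rv]; split_ifs <;> omega),
      R0inv_mk hn (v := n - 1) (u := n - 2) (by omega) (by omega) (by split_ifs <;> first | omega | (exfalso; assumption)),
      R0inv_mk hn (v := n - 2) (u := n - 3) (by omega) (by omega) (by split_ifs <;> first | omega | (exfalso; assumption)),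
      R1_mk hn (v := n - 3) (u := n - 2) (by omega) (by omega) (by simp only [rv]; split_ifs <;> omega),
      R1_mk hn (v := n - 2) (u := 0) (by omega) (by omega) (by simp only [rv]; split_ifs <;> omega),
      R0_mk hn (v := 0) (u := 1) (by omega) (by omega) (by simp only [rv]; split_ifs <;> omega)]

lemma occ_w3 (hn : 3 ≤ n) {i : ℕ} {a b : Perm (Fin n)} (ha : Occ w i a)
    (hno : ¬ ∃ c, Occ w (i + 1) c) (hno2 : ¬ ∃ c, Occ w (i + 2) c) (hb : Occ w (i + 3) b) :
    b = a * R0 n hn * R1 n hn * R1 n hn ∨ b = a * R0 n hn * R1 n hn * R2 n hn ∨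
    b = a * R0 n hn * R1 n hn * R1 n hn * (R0 n hn)⁻¹ * (R0 n hn)⁻¹ * R1 n hn * R1 n hn := by
  have hb2 := hb (n - 3) (by omega)
  have e2 : i + 3 + (n - 3) = i + n := by omega
  rw [e2] at hb2
  have hne : b ⟨n - 3, by omega⟩ ≠ a ⟨0, by omega⟩ := by
    intro h
    apply hno
    rw [h] at hb2
    exact ⟨_, occ_next hn ha hb2⟩
  have hb1 := hb (n - 2) (by omega)
  have e1 : i + 3 + (n - 2) = i + n + 1 := by omega
  rw [e1] at hb1
  obtain ⟨x, hx, hx2, hbx⟩ := Occ.tail ha hb (show n - 3 < n by omega) (by omega)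
  obtain ⟨y, hy, hy2, hby⟩ := Occ.tail ha hb (show n - 2 < n by omega) (by omega)
  obtain ⟨z, hz, hz2, hbz⟩ := Occ.tail ha hb (show n - 1 < n by omega) (by omega)
  have hx0 : x ≠ 0 := by
    intro h
    subst h
    exact hne hbx
  have hxy : x ≠ y := by
    intro h
    subst h
    rw [← hby] at hbx
    have := congrArg Fin.val (b.injective hbx)
    simp only at this
    omega
  have hxz : x ≠ z := by
    intro h
    subst h
    rw [← hbz] at hbx
    have := congrArg Fin.val (b.injective hbx)
    simp only at this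
    omega
  have hyz : y ≠ z := by
    intro h
    subst h
    rw [← hbz] at hby
    have := congrArg Fin.val (b.injective hby)
    simp only at this
    omega
  have h12 : ¬ (x = 1 ∧ y = 0) := by
    rintro ⟨h1, h2⟩
    subst h1
    subst h2
    apply hno2
    rw [hbx] at hb2
    rw [hby] at hb1
    exact ⟨_, occ_next2 hn ha hb2 hb1⟩
  have hcases : (x = 1 ∧ y = 2 ∧ z = 0) ∨ (x = 2 ∧ y = 1 ∧ z = 0) ∨ (x = 2 ∧ y = 0 ∧ z = 1) := by
    omega
  have ev : ∀ x (hx : x + 3 < n), b ⟨x, by omega⟩ = a ⟨x + 3, hx⟩ :=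
    fun x hx => Occ.overlap ha hb hx
  rcases hcases with ⟨h1, h2, h3⟩ | ⟨h1, h2, h3⟩ | ⟨h1, h2, h3⟩
  · subst h1; subst h2; subst h3
    exact Or.inl (eqA hn ev hbx hby hbz)
  · subst h1; subst h2; subst h3
    exact Or.inr (Or.inl (eqC hn ev hbx hby hbz))
  · subst h1; subst h2; subst h3
    exact Or.inr (Or.inr (eqB hn ev hbx hby hbz))

open Classical in
/-- the permutation read at position `i` -/
noncomputable def pw (w : List (Fin n)) (i : ℕ) : Option (Perm (Fin n)) :=
  if h : ∃ a, Occ w i a then some h.choose else none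

lemma pw_some {i : ℕ} {a : Perm (Fin n)} : pw w i = some a ↔ Occ w i a := by
  classical
  unfold pw
  split_ifs with h
  · rw [Option.some_inj]
    constructor
    · intro h'
      rw [← h']
      exact h.choose_spec
    · intro h'
      exact Occ.uniq h.choose_spec h'
  · constructor
    · intro h'
      cases h'
    · intro h'
      exact (h ⟨a, h'⟩).elim

lemma pw_none {i : ℕ} : pw w i = none ↔ ¬ ∃ a, Occ w i a := by
  classical
  unfold pw
  split_ifs with h
  · constructor
    · intro h'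
      cases h'
    · intro h'
      exact (h' h).elim
  · exact ⟨fun _ => h, fun _ => rfl⟩

lemma mulRight_iter (a ρ : Perm (Fin n)) (k : ℕ) :
    ((Equiv.mulRight ρ : Perm (Perm (Fin n))) ^ k) a = a * ρ ^ k := by
  rw [Equiv.pow_mulRight]
  rfl

lemma free_iter {k m : ℕ} (hk : k < n) (a : Perm (Fin n)) (h0 : 0 < m) (hm : m ≤ k) :
    ((Equiv.mulRight (cyc k hk) : Perm (Perm (Fin n))) ^ m) a ≠ a := by
  rw [mulRight_iter]
  intro h
  have h1 : (cyc k hk) ^ m = 1 := by
    have : a * (cyc k hk) ^ m = a * 1 := by rw [h, mul_one]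
    exact mul_left_cancel this
  have h2 := cyc_pow_zero hk hm
  rw [h1] at h2
  simp only [Perm.one_apply] at h2
  omega

lemma Occ.le {i : ℕ} {a : Perm (Fin n)} (hn : 0 < n) (h : Occ w i a) : i + n ≤ w.length := by
  have h1 := h (n - 1) (by omega)
  have h2 : i + (n - 1) < w.length := by
    by_contra hcon
    rw [List.getElem?_eq_none (by omega)] at h1
    cases h1
  omega

/-- the reading walk of a word that contains all permutations -/
lemma walk_of_word (hn : 3 ≤ n) (hw : ∀ a : Perm (Fin n), ∃ i, Occ w i a) :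
    Walk n (w.length - n) (Equiv.mulRight (R0 n hn)) (Equiv.mulRight (R1 n hn))
      (Equiv.mulRight (R2 n hn)) (pw w) where
  hn := hn
  rn := by
    ext1 a
    rw [mulRight_iter]
    have h : (R0 n hn) ^ n = 1 := by
      have := cyc_pow_eq_one (show n - 1 < n by omega)
      have h2 : n - 1 + 1 = n := by omega
      rw [h2] at this
      exact this
    rw [h, mul_one]
    rfl
  rfree := by
    intro a j h0 hj
    exact free_iter (show n - 1 < n by omega) a h0 (by omega)
  r1n := by
    ext1 a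
    rw [mulRight_iter]
    have h : (R1 n hn) ^ (n - 1) = 1 := by
      have := cyc_pow_eq_one (show n - 2 < n by omega)
      have h2 : n - 2 + 1 = n - 1 := by omega
      rw [h2] at this
      exact this
    rw [h, mul_one]
    rfl
  r1free := by
    intro a j h0 hj
    exact free_iter (show n - 2 < n by omega) a h0 (by omega)
  r2n := by
    ext1 a
    rw [mulRight_iter]
    have h : (R2 n hn) ^ (n - 2) = 1 := by
      have := cyc_pow_eq_one (show n - 3 < n by omega)
      have h2 : n - 3 + 1 = n - 2 := by omega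
      rw [h2] at this
      exact this
    rw [h, mul_one]
    rfl
  w1 := by
    intro i a b _ ha hb
    rw [pw_some] at ha hb
    exact occ_w1 hn ha hb
  w2 := by
    intro i a b _ ha h1 hb
    rw [pw_some] at ha hb
    rw [pw_none] at h1
    exact occ_w2 hn ha h1 hb
  w3 := by
    intro i a b _ ha h1 h2 hb
    rw [pw_some] at ha hb
    rw [pw_none] at h1 h2
    rcases occ_w3 hn ha h1 h2 hb with h | h | h
    · exact Or.inl h
    · exact Or.inr (Or.inl h)
    · right; right
      refine ⟨a * R0 n hn * R1 n hn * R1 n hn * (R0 n hn)⁻¹ * (R0 n hn)⁻¹, ⟨n - 3, ?_⟩, 2, 2, ?_⟩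
      · rw [mulRight_iter, h]
        have h3 : (R1 n hn) ^ (n - 1) = 1 := by
          have := cyc_pow_eq_one (show n - 2 < n by omega)
          have h2 : n - 2 + 1 = n - 1 := by omega
          rw [h2] at this
          exact this
        have h4 : R1 n hn * (R1 n hn * (R1 n hn) ^ (n - 3)) = 1 := by
          rw [← pow_succ', ← pow_succ', ← h3]
          congr 1
          omega
        rw [mul_assoc, mul_assoc, h4, mul_one]
      · rw [mulRight_iter, mulRight_iter]
        show _ = a * R0 n hn * (R1 n hn) ^ 2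
        rw [pow_two, pow_two]
        simp only [mul_assoc]
        rw [inv_mul_cancel_left, inv_mul_cancel, mul_one]
  surj := by
    intro a
    obtain ⟨i, hi⟩ := hw a
    have := hi.le (by omega)
    exact ⟨i, by omega, pw_some.2 hi⟩
  out := by
    intro i a ha
    rw [pw_some] at ha
    have := ha.le (by omega)
    omega

end windows

end Pool.Agent.V5helper14.SP
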