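import Pool.Agent.V5helper14.SPClass

set_option autoImplicit false
set_option linter.unusedSectionVars false

namespace Pool.Agent.V5helper14.SP

open Finset

section main

variable {X : Type} [Fintype X] {n M : ℕ} {r r1 r2 : Equiv.Perm X} {p : ℕ → Option X}
variable (W : Walk n M r r1 r2 p)
include W

/-- the exit of an uninterrupted 2-loop which is not followed by a new 2-loop -/
lemma exit_waste {q : ℕ} {a : X} (hb : Block W q a)
    (hG : q + n ^ 2 ∉ Q1 W) (hM : q + n ^ 2 ≤ M) : Wst W (q + n ^ 2 - 1) := by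
  have hn := W.hn
  have hAr := arith_n hn
  set c := (r1 ^ (n - 2)) a with hc
  obtain ⟨hcF, hcf, hcr⟩ := hb (n - 2) le_rfl
  rw [← hc] at hcF hcf hcr
  set R := q + (n - 2) * (n + 1) + (n - 1) with hR
  have hR3 : q + n ^ 2 - 1 = R + 2 := by omega
  rw [hR3]
  have hx : p R = some ((r ^ (n - 1)) c) := hcr (n - 1) le_rfl
  have hrx := r_last W c
  refine ⟨by omega, ?_, ?_, ?_⟩
  · rintro ⟨z, hz, hz2⟩
    rcases h1 : p (R + 1) with _ | z'
    · have h2 : z = r1 (r ((r ^ (n - 1)) c)) := W.w2 R _ z (by omega) hx h1 hz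
      rw [hrx, hc, r1_last W a] at h2
      have h3 : fst W a = q + 0 * (n + 1) := (hb 0 (by omega)).2.1
      rw [h2] at hz2
      omega
    · have h2 : z' = r ((r ^ (n - 1)) c) := W.w1 R _ z' (by omega) hx h1
      rw [hrx] at h2
      subst h2
      have h3 : z = r c := W.w1 (R + 1) c z (by omega) h1 hz
      have h4 : p (q + (n - 2) * (n + 1) + 1) = some z := by
        rw [h3]
        simpa using hcr 1 (by omega)
      have h5 := fst_min W (by omega) h4
      omega
  · rintro ⟨s, z, hs, hz, hfz, _⟩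
    have hs' : s = R + 1 := by omega
    subst hs'
    have h2 : z = r ((r ^ (n - 1)) c) := W.w1 R _ z (by omega) hx hz
    rw [hrx] at h2
    rw [h2] at hfz
    omega
  · rintro ⟨b, hb'⟩
    apply hG
    rw [mem_Q1]
    have : R + 2 + 1 = q + n ^ 2 := by omega
    rw [← this]
    exact ⟨b, hb'⟩

/-- the five possibilities for a 2-loop that is not good -/
lemma classify {q : ℕ} {a : X} (ha : LeadAt W q a) (hq : q ∉ GG W) :
    (∃ y, Orb r1 a y ∧ ¬ First W y) ∨
    (∃ c y, Orb r1 a c ∧ First W c ∧ Orb r c y ∧ Ent M p (fst W y) y ∧ ¬ First W y) ∨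
    (∃ t, Wst W t ∧ ((p t = none ∧ ∃ z, p (t + 1) = some z ∧ Orb r1 a z) ∨
      (∃ z c, p t = some z ∧ Orb r1 a c ∧ First W c ∧ Orb r c z))) ∨
    Wst W (q + n ^ 2 - 1) ∨ (Block W q a ∧ M < q + n ^ 2) := by
  have hn := W.hn
  have hr1 : 0 < n - 1 := by omega
  by_cases h1 : ∃ y, Orb r1 a y ∧ ¬ First W y
  · exact Or.inl h1
  by_cases h2 : ∃ c y, Orb r1 a c ∧ First W c ∧ Orb r c y ∧ Ent M p (fst W y) y ∧ ¬ First W y
  · exact Or.inr (Or.inl h2)
  by_cases h3 : ∃ t, Wst W t ∧ ((p t = none ∧ ∃ z, p (t + 1) = some z ∧ Orb r1 a z) ∨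
      (∃ z c, p t = some z ∧ Orb r1 a c ∧ First W c ∧ Orb r c z))
  · exact Or.inr (Or.inr (Or.inl h3))
  by_cases h4 : Wst W (q + n ^ 2 - 1)
  · exact Or.inr (Or.inr (Or.inr (Or.inl h4)))
  refine Or.inr (Or.inr (Or.inr (Or.inr ?_)))
  have hF : ∀ y, Orb r1 a y → First W y := by
    intro y hy
    by_contra h
    exact h1 ⟨y, hy, h⟩
  have hrun : ∀ c, Orb r1 a c → fst W ((r ^ (n - 1)) c) = fst W c + (n - 1) ∧
      ∀ j, j ≤ n - 1 → p (fst W c + j) = some ((r ^ j) c) := by
    intro c hc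
    apply run_lemma W (hF c hc)
    · intro y hy hE
      by_contra h
      exact h2 ⟨c, y, hc, hF c hc, hy, hE, h⟩
    · intro t y ht hy hw
      exact h3 ⟨t, hw, Or.inr ⟨y, c, ht, hc, hF c hc, hy⟩⟩
  have hlink : ∀ c, Orb r1 a c → r1 c ≠ a →
      fst W ((r ^ (n - 1)) c) + 2 = fst W (r1 c) := by
    intro c hc hne
    apply link W ha hc hne (hF _ (hc.trans (Orb.step r1 c)))
    intro t z ht hz haz hw
    exact h3 ⟨t, hw, Or.inl ⟨ht, z, hz, haz⟩⟩
  have hfa : fst W a = q := by
    apply le_antisymm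
    · exact fst_min W ha.1.1 ha.1.2.1
    · exact ha.2 _ _ (first_ent W (hF a (Orb.refl _ _))) (Orb.refl _ _)
  have hpos : ∀ k, k ≤ n - 2 → fst W ((r1 ^ k) a) = q + k * (n + 1) := by
    intro k
    induction k with
    | zero => intro _; simpa using hfa
    | succ k ih =>
      intro hk
      have h5 := ih (by omega)
      have hck : Orb r1 a ((r1 ^ k) a) := ⟨k, rfl⟩
      have h6 := (hrun _ hck).1
      have hs : (r1 ^ (k + 1)) a = r1 ((r1 ^ k) a) := by
        rw [pow_succ', Equiv.Perm.mul_apply]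
      have h7 := hlink _ hck (by
        rw [← hs]
        exact W.r1free a (k + 1) (by omega) (by omega))
      rw [hs, ← h7, h6, h5]
      have : (k + 1) * (n + 1) = k * (n + 1) + n + 1 := by ring
      omega
  have hBlock : Block W q a := by
    intro k hk
    have hck : Orb r1 a ((r1 ^ k) a) := ⟨k, rfl⟩
    refine ⟨hF _ hck, hpos k hk, ?_⟩
    have h5 := (hrun _ hck).2
    rw [hpos k hk] at h5
    exact h5
  refine ⟨hBlock, ?_⟩
  by_contra hM
  apply h4
  apply exit_waste W hBlock _ (by omega)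
  intro hQ
  apply hq
  rw [mem_GG, mem_Q1]
  exact ⟨⟨a, ha⟩, ⟨a, ha, hBlock⟩, hQ⟩

lemma card_nonG : (Q1 W \ GG W).card ≤ 2 * (DD W).card + 2 * (WW W).card + 1 := by
  classical
  have hn := W.hn
  have hr1 : 0 < n - 1 := by omega
  have hn2 : 0 < n ^ 2 := by positivity
  set A := Q1 W \ GG W with hA
  set A1 := A.filter (fun q => ∃ a, LeadAt W q a ∧ ∃ y, Orb r1 a y ∧ ¬ First W y) with hA1
  set A2 := A.filter (fun q => ∃ a, LeadAt W q a ∧ ∃ c y, Orb r1 a c ∧ First W c ∧ Orb r c y ∧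
    Ent M p (fst W y) y ∧ ¬ First W y) with hA2
  set A3 := A.filter (fun q => ∃ a, LeadAt W q a ∧ ∃ t, Wst W t ∧
    ((p t = none ∧ ∃ z, p (t + 1) = some z ∧ Orb r1 a z) ∨
      (∃ z c, p t = some z ∧ Orb r1 a c ∧ First W c ∧ Orb r c z))) with hA3
  set A4 := A.filter (fun q => Wst W (q + n ^ 2 - 1)) with hA4
  set A5 := A.filter (fun q => ∃ a, LeadAt W q a ∧ Block W q a ∧ M < q + n ^ 2) with hA5
  have hsub : A ⊆ A1 ∪ A2 ∪ A3 ∪ A4 ∪ A5 := by
    intro q hq
    have hq' := hq
    rw [hA, mem_sdiff, mem_Q1] at hq'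
    obtain ⟨⟨a, ha⟩, hnG⟩ := hq'
    rw [mem_union, mem_union, mem_union, mem_union, hA1, hA2, hA3, hA4, hA5, mem_filter,
      mem_filter, mem_filter, mem_filter, mem_filter]
    rcases classify W ha hnG with h | h | h | h | h
    · exact Or.inl (Or.inl (Or.inl (Or.inl ⟨hq, a, ha, h⟩)))
    · exact Or.inl (Or.inl (Or.inl (Or.inr ⟨hq, a, ha, h⟩)))
    · exact Or.inl (Or.inl (Or.inr ⟨hq, a, ha, h⟩))
    · exact Or.inl (Or.inr ⟨hq, h⟩)
    · exact Or.inr ⟨hq, a, ha, h⟩
  have c1 : A1.card ≤ (DD W).card := by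
    apply card_le_of_rel (fun q y => ∃ a, LeadAt W q a ∧ Orb r1 a y)
    · intro q hq
      rw [hA1, mem_filter] at hq
      obtain ⟨_, a, ha, y, h1, h2⟩ := hq
      exact ⟨y, (mem_DD W).2 ⟨⟨q, a, ha, h1⟩, h2⟩, a, ha, h1⟩
    · rintro q _ q' _ y ⟨a, ha, hay⟩ ⟨b, hb, hby⟩
      exact LeadAt.uniq W ha hb (hay.trans (hby.symm W.r1n hr1))
  have c2 : A2.card ≤ (DD W).card := by
    apply card_le_of_rel (fun q y => ∃ a c, LeadAt W q a ∧ Orb r1 a c ∧ First W c ∧ Orb r c y)
    · intro q hq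
      rw [hA2, mem_filter] at hq
      obtain ⟨_, a, ha, c, y, h1, h2, h3, h4, h5⟩ := hq
      refine ⟨y, (mem_DD W).2 ⟨exists_lead W h4, h5⟩, a, c, ha, h1, h2, h3⟩
    · rintro q _ q' _ y ⟨a, c, ha, h1, h2, h3⟩ ⟨b, d, hb, h4, h5, h6⟩
      have : c = d := First.uniq W h2 h5 (h3.trans (h6.symm W.rn (npos W)))
      subst this
      exact LeadAt.uniq W ha hb (h1.trans (h4.symm W.r1n hr1))
  have c3 : A3.card ≤ (WW W).card := by
    apply card_le_of_rel (fun q t => ∃ a, LeadAt W q a ∧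
      ((p t = none ∧ ∃ z, p (t + 1) = some z ∧ Orb r1 a z) ∨
      (∃ z c, p t = some z ∧ Orb r1 a c ∧ First W c ∧ Orb r c z)))
    · intro q hq
      rw [hA3, mem_filter] at hq
      obtain ⟨_, a, ha, t, h1, h2⟩ := hq
      exact ⟨t, (mem_WW W).2 h1, a, ha, h2⟩
    · rintro q _ q' _ t ⟨a, ha, h1⟩ ⟨b, hb, h2⟩
      rcases h1 with ⟨h1, z, hz, haz⟩ | ⟨z, c, h1, h3, h4, h5⟩
      · rcases h2 with ⟨h2, z', hz', hbz'⟩ | ⟨z', c', h2, _⟩
        · rw [hz] at hz'
          have := Option.some_injective _ hz'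
          subst this
          exact LeadAt.uniq W ha hb (haz.trans (hbz'.symm W.r1n hr1))
        · rw [h1] at h2
          cases h2
      · rcases h2 with ⟨h2, _⟩ | ⟨z', c', h2, h6, h7, h8⟩
        · rw [h1] at h2
          cases h2
        · rw [h1] at h2
          have := Option.some_injective _ h2
          subst this
          have : c = c' := First.uniq W h4 h7 (h5.trans (h8.symm W.rn (npos W)))
          subst this
          exact LeadAt.uniq W ha hb (h3.trans (h6.symm W.r1n hr1))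
  have c4 : A4.card ≤ (WW W).card := by
    apply card_le_of_rel (fun q t => t = q + n ^ 2 - 1)
    · intro q hq
      rw [hA4, mem_filter] at hq
      exact ⟨_, (mem_WW W).2 hq.2, rfl⟩
    · rintro q _ q' _ t h1 h2
      omega
  have c5 : A5.card ≤ 1 := by
    rw [Finset.card_le_one]
    have key : ∀ q q', q ∈ A5 → q' ∈ A5 → q < q' → False := by
      intro q q' hq hq' hlt
      rw [hA5, mem_filter] at hq hq'
      obtain ⟨_, a, ha, hab, hM⟩ := hq
      obtain ⟨_, b, hb, hbb, hM'⟩ := hq'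
      have hAr := arith_n hn
      have h1 : q' + n ^ 2 ≤ M + 3 := by
        have h3 := W.out _ _ ((hbb (n - 2) le_rfl).2.2 (n - 1) le_rfl)
        omega
      have h3 : p q = some a := ha.1.2.1
      have h4 : p (q + 1) = some (r a) := by
        have := (hab 0 (by omega)).2.2 1 (by omega)
        simpa using this
      have h5 : q' = q + 1 ∨ q' = q + 2 := by omega
      rcases h5 with h5 | h5
      · have := hb.1.2.2 q h5
        rw [h3] at this
        cases this
      · have := hb.1.2.2 (q + 1) h5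
        rw [h4] at this
        cases this
    intro q hq q' hq'
    rcases lt_trichotomy q q' with h | h | h
    · exact (key q q' hq hq' h).elim
    · exact h
    · exact (key q' q hq' hq h).elim
  have hc := card_le_card hsub
  have u1 := card_union_le (A1 ∪ A2 ∪ A3 ∪ A4) A5
  have u2 := card_union_le (A1 ∪ A2 ∪ A3) A4
  have u3 := card_union_le (A1 ∪ A2) A3
  have u4 := card_union_le A1 A2
  omega

/-- the main inequality -/
theorem main_ineq {T0 K : ℕ} (hX : Fintype.card X = n * ((n - 1) * T0))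
    (hK : K + 1 = 2 * (n - 1) ^ 2) :
    T0 + K * (Fintype.card X + (n - 1) * T0 + T0) ≤ K * (M + 3) + (n - 1) := by
  have hn := W.hn
  have h0 := card_X W
  have h1 := card_pos W
  have h2 := card_DF W
  have h3 := card_Q1 W
  have h4 := card_nonG W
  set F := (FF W).card
  set T := (Q1 W).card
  set D := (DD W).card
  set Wc := (WW W).card
  set N1 := (Q1 W \ GG W).card
  set m := n - 1 with hm
  have hm2 : 2 ≤ m := by omega
  have hF : F = m * T0 := by
    rw [hX] at h0
    exact (Nat.eq_of_mul_eq_mul_left (by omega) h0).symm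
  have hTT : T0 ≤ T := by
    have : m * T0 ≤ m * T := by rw [← hF]; omega
    exact Nat.le_of_mul_le_mul_left this (by omega)
  obtain ⟨s, hs⟩ := Nat.exists_eq_add_of_le hTT
  have hD : D ≤ m * s := by
    rw [hs, hF] at h2
    have : m * (T0 + s) = m * T0 + m * s := by ring
    omega
  have h5 : T0 + s ≤ m * (2 * (m * s) + 2 * Wc + 1) := by
    rw [← hs]
    refine h3.trans (Nat.mul_le_mul_left m ?_)
    omega
  have h6 : m * (2 * (m * s) + 2 * Wc + 1) = (2 * m ^ 2) * s + 2 * m * Wc + m := by ring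
  rw [h6, ← hK] at h5
  have h7 : (K + 1) * s = K * s + s := by ring
  have h8 : 2 * m * Wc ≤ K * Wc := by
    apply Nat.mul_le_mul_right
    have : 2 * m ^ 2 = m * (2 * m) := by ring
    have h9 : 2 * (2 * m) ≤ m * (2 * m) := Nat.mul_le_mul_right _ hm2
    omega
  have h10 : T0 ≤ K * s + K * Wc + m := by omega
  have h11 : K * (Fintype.card X + F + T + Wc) ≤ K * (M + 3) := Nat.mul_le_mul_left K h1
  have h12 : K * (Fintype.card X + F + T + Wc) =
      K * (Fintype.card X + m * T0 + T0) + K * s + K * Wc := by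
    rw [hs, hF]; ring
  omega

end main

end Pool.Agent.V5helper14.SP
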